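import Mathlib
import Pool.Agent.helper92.Mertens

/-!
# Choice of the scale

For a finite nonnegative combination of `θ (u i * n)` there are arbitrarily large natural numbers `n` at which
it is at least `(1 - ε)` times its expected size. Only the lower bound in Mertens' first theorem is used.
-/

set_option autoImplicit false

namespace Pool.Agent.helper81.OM

open Finset Real Chebyshev

lemma sum_telescope (a b : ℕ) (ha : 1 ≤ a) (hab : a ≤ b + 1) :
    ∑ n ∈ Finset.Ico a (b + 1), (1 : ℝ) / (n * (n + 1)) = 1 / a - 1 / (b + 1) := by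
  induction b with
  | zero =>
    have : a = 1 := by omega
    subst this
    simp
  | succ b ih =>
    rcases Nat.lt_or_ge b.succ a with h | h
    · have : a = b + 1 + 1 := by omega
      subst this
      simp
    · rw [Finset.sum_Ico_succ_top (by omega), ih (by omega)]
      push_cast
      field_simp
      ring

/-- the averaged sum -/
noncomputable def L (u : ℝ) (N : ℕ) : ℝ := ∑ n ∈ Finset.Ico 1 (N + 1), θ (u * n) / (n * (n + 1))

lemma L_nonneg (u : ℝ) (N : ℕ) : 0 ≤ L u N := by
  unfold L
  refine Finset.sum_nonneg fun n _ => div_nonneg (Chebyshev.theta_nonneg _) (by positivity)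

lemma theta_eq_ite (u : ℝ) (hu : 0 < u) (n N : ℕ) (hn : n ≤ N) :
    θ (u * n) = ∑ p ∈ Nat.primesLE ⌊u * N⌋₊, if (p : ℝ) ≤ u * n then Real.log p else 0 := by
  rw [Chebyshev.theta_eq_theta_coe_floor, Chebyshev.theta_eq_sum_primesLE_log, ← Finset.sum_filter]
  apply Finset.sum_congr _ (fun _ _ => rfl)
  ext p
  simp only [Nat.mem_primesLE, Finset.mem_filter]
  have hnn : (0 : ℝ) ≤ u * n := by positivity
  have hle : u * (n : ℝ) ≤ u * N := by gcongr
  constructor
  · rintro ⟨h1, h2⟩
    exact ⟨⟨h1.trans (Nat.floor_mono hle), h2⟩, (Nat.le_floor_iff hnn).1 h1⟩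
  · rintro ⟨⟨_, h2⟩, h3⟩
    exact ⟨(Nat.le_floor_iff hnn).2 h3, h2⟩

lemma L_lower (u : ℝ) (hu : 0 < u) : ∃ C : ℝ, ∀ N : ℕ, 1 ≤ N → u * Real.log N - C ≤ L u N := by
  refine ⟨u * (3 + Real.log 2 + |Real.log u|) + u ^ 2 * 2 + Real.log 4 * u, fun N hN => ?_⟩
  have hN1 : (1 : ℝ) ≤ N := by exact_mod_cast hN
  have hlog4 : 0 ≤ Real.log 4 := Real.log_nonneg (by norm_num)
  have hlog2 : 0 ≤ Real.log 2 := Real.log_nonneg (by norm_num)
  rcases lt_or_ge (u * N) 1 with hsmall | hbig
  · have h1 : Real.log N ≤ |Real.log u| := by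
      have h2 : Real.log (u * N) ≤ 0 := Real.log_nonpos (by positivity) hsmall.le
      rw [Real.log_mul hu.ne' (by positivity)] at h2
      have := neg_abs_le (Real.log u)
      linarith
    have h2 : u * Real.log N ≤ u * |Real.log u| := by gcongr
    have h3 := L_nonneg u N
    have h4 : 0 ≤ u * (3 + Real.log 2) + u ^ 2 * 2 + Real.log 4 * u := by positivity
    nlinarith
  · set M := ⌊u * N⌋₊ with hM
    have hM1 : 1 ≤ M := by rw [hM, Nat.one_le_floor_iff]; exact hbig
    have hM1r : (1 : ℝ) ≤ M := by exact_mod_cast hM1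
    have hMle : (M : ℝ) ≤ u * N := Nat.floor_le (by positivity)
    have hMlt : u * N < M + 1 := Nat.lt_floor_add_one _
    -- rewrite `L`
    have e1 : L u N = ∑ p ∈ Nat.primesLE M, Real.log p *
        ∑ n ∈ Finset.Ico 1 (N + 1), if (p : ℝ) ≤ u * n then (1 : ℝ) / (n * (n + 1)) else 0 := by
      unfold L
      have : ∀ n ∈ Finset.Ico 1 (N + 1), θ (u * n) / ((n : ℝ) * (n + 1)) =
          ∑ p ∈ Nat.primesLE M, Real.log p * (if (p : ℝ) ≤ u * n then (1 : ℝ) / (n * (n + 1)) else 0) := by
        intro n hn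
        rw [Finset.mem_Ico] at hn
        rw [theta_eq_ite u hu n N (by omega), Finset.sum_div]
        refine Finset.sum_congr rfl fun p _ => ?_
        split_ifs
        · ring
        · simp
      rw [Finset.sum_congr rfl this, Finset.sum_comm]
      refine Finset.sum_congr rfl fun p _ => ?_
      rw [Finset.mul_sum]
    have e2 : ∀ p ∈ Nat.primesLE M, Real.log p * (u / p - u ^ 2 * (1 / (p * (p - 1))) - 1 / (N + 1)) ≤
        Real.log p * ∑ n ∈ Finset.Ico 1 (N + 1), if (p : ℝ) ≤ u * n then (1 : ℝ) / (n * (n + 1)) else 0 := by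
      intro p hp
      have hp' := Nat.mem_primesLE.mp hp
      have hp2 : (2 : ℝ) ≤ p := by exact_mod_cast hp'.2.two_le
      have hpM : (p : ℝ) ≤ u * N := le_trans (by exact_mod_cast hp'.1) hMle
      refine mul_le_mul_of_nonneg_left ?_ (Real.log_nonneg (by linarith))
      set n0 := ⌈(p : ℝ) / u⌉₊ with hn0
      have hn01 : 1 ≤ n0 := Nat.one_le_ceil_iff.2 (by positivity)
      have hn0N : n0 ≤ N := by
        rw [hn0, Nat.ceil_le, div_le_iff₀ hu]; linarith
      have hsum : ∑ n ∈ Finset.Ico 1 (N + 1), (if (p : ℝ) ≤ u * n then (1 : ℝ) / (n * (n + 1)) else 0) =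
          1 / n0 - 1 / (N + 1) := by
        rw [← sum_telescope n0 N hn01 (by omega), ← Finset.sum_filter]
        apply Finset.sum_congr _ (fun _ _ => rfl)
        ext n
        simp only [Finset.mem_filter, Finset.mem_Ico]
        have hiff : (p : ℝ) ≤ u * n ↔ n0 ≤ n := by
          rw [hn0, Nat.ceil_le, div_le_iff₀ hu, mul_comm]
        rw [hiff]
        omega
      rw [hsum]
      have hn0pos : (0 : ℝ) < n0 := by exact_mod_cast hn01
      have h1 : (n0 : ℝ) ≤ p / u + 1 := (Nat.ceil_lt_add_one (by positivity)).le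
      have h2 : 1 / ((p : ℝ) / u + 1) ≤ 1 / n0 := one_div_le_one_div_of_le hn0pos h1
      have h3 : u / p - u ^ 2 * (1 / (p * (p - 1))) ≤ 1 / ((p : ℝ) / u + 1) := by
        have hp0 : (0 : ℝ) < p := by linarith
        have hp1 : (0 : ℝ) < p - 1 := by linarith
        have e : 1 / ((p : ℝ) / u + 1) = u / (p + u) := by field_simp
        rw [e]
        have h4 : u / p - u ^ 2 * (1 / (p * p)) ≤ u / (p + u) := by
          rw [← sub_nonneg]
          have : u / (p + u) - (u / p - u ^ 2 * (1 / (p * p))) = u ^ 3 / (p ^ 2 * (p + u)) := by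
            field_simp; ring
          rw [this]; positivity
        have h5 : (1 : ℝ) / (p * p) ≤ 1 / (p * (p - 1)) := by
          apply one_div_le_one_div_of_le (by positivity)
          nlinarith
        have h6 : u ^ 2 * (1 / ((p : ℝ) * p)) ≤ u ^ 2 * (1 / (p * (p - 1))) := by gcongr
        linarith
      linarith
    have e3 := Finset.sum_le_sum e2
    rw [← e1] at e3
    have e4 : ∑ p ∈ Nat.primesLE M, Real.log p * (u / p - u ^ 2 * (1 / (p * (p - 1))) - 1 / (N + 1)) =
        u * (∑ p ∈ Nat.primesLE M, Real.log p / p) -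
          u ^ 2 * (∑ p ∈ Nat.primesLE M, Real.log p / (p * (p - 1))) - θ M / (N + 1) := by
      rw [Chebyshev.theta_eq_sum_primesLE_log, Finset.mul_sum, Finset.mul_sum, Finset.sum_div,
        ← Finset.sum_sub_distrib, ← Finset.sum_sub_distrib]
      refine Finset.sum_congr rfl fun p _ => ?_
      ring
    rw [e4] at e3
    have e5 := Pool.Agent.helper92.Mertens.mertens_lower M hM1
    have e6 := Pool.Agent.helper92.Mertens.sum_primes_log_div_mul_pred M
    have e7 : θ M / (N + 1) ≤ Real.log 4 * u := by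
      have h1 := Chebyshev.theta_le_log4_mul_x (x := (M : ℝ)) (by positivity)
      rw [div_le_iff₀ (by positivity)]
      calc θ M ≤ Real.log 4 * M := h1
        _ ≤ Real.log 4 * (u * N) := by gcongr
        _ ≤ Real.log 4 * u * (N + 1) := by nlinarith [mul_nonneg hlog4 hu.le]
    have e8 : Real.log N - |Real.log u| - Real.log 2 ≤ Real.log M := by
      have h1 : u * N ≤ 2 * M := by linarith
      have h2 := Real.log_le_log (by positivity) h1
      rw [Real.log_mul hu.ne' (by positivity), Real.log_mul (by norm_num) (by positivity)] at h2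
      have := neg_abs_le (Real.log u)
      linarith
    have e9 : u * (Real.log N - |Real.log u| - Real.log 2 - 3) ≤
        u * ∑ p ∈ Nat.primesLE M, Real.log p / p := by
      gcongr
      linarith
    have e10 : u ^ 2 * (∑ p ∈ Nat.primesLE M, Real.log p / (p * (p - 1))) ≤ u ^ 2 * 2 := by gcongr
    linarith

/-- **Choice of the scale.** -/
theorem exists_scale (B : ℕ) (a u : ℕ → ℝ) (ha : ∀ i ∈ Finset.range B, 0 ≤ a i)
    (hu : ∀ i ∈ Finset.range B, 0 < u i) (ε : ℝ) (hε : 0 < ε)
    (hA : 0 < ∑ i ∈ Finset.range B, a i * u i) (N₀ : ℕ) :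
    ∃ n : ℕ, N₀ ≤ n ∧ 1 ≤ n ∧
      (1 - ε) * n * ∑ i ∈ Finset.range B, a i * u i ≤ ∑ i ∈ Finset.range B, a i * θ (u i * n) := by
  by_contra hcon
  push Not at hcon
  set A := ∑ i ∈ Finset.range B, a i * u i with hAdef
  set S : ℕ → ℝ := fun n => ∑ i ∈ Finset.range B, a i * θ (u i * n) with hS
  have hS0 : ∀ n, 0 ≤ S n := fun n =>
    Finset.sum_nonneg fun i hi => mul_nonneg (ha i hi) (Chebyshev.theta_nonneg _)
  set M := max N₀ 1 with hM
  have hM1 : 1 ≤ M := le_max_right _ _
  have hlt : ∀ n, M ≤ n → S n < (1 - ε) * n * A := fun n hn =>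
    hcon n ((le_max_left _ _).trans hn) (hM1.trans hn)
  have hε1 : 0 ≤ 1 - ε := by
    have h1 := hlt M le_rfl
    have h2 := hS0 M
    have h3 : (0 : ℝ) < M := by exact_mod_cast hM1
    by_contra hneg
    push Not at hneg
    have : (1 - ε) * M * A < 0 := by
      have := mul_neg_of_neg_of_pos (mul_neg_of_neg_of_pos hneg h3) hA
      exact this
    linarith
  -- constants of the lower bounds
  have hC : ∀ i, ∃ C : ℝ, i ∈ Finset.range B → ∀ N : ℕ, 1 ≤ N → u i * Real.log N - C ≤ L (u i) N := by
    intro i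
    by_cases hi : i ∈ Finset.range B
    · obtain ⟨C, hC⟩ := L_lower (u i) (hu i hi)
      exact ⟨C, fun _ => hC⟩
    · exact ⟨0, fun h => absurd h hi⟩
  choose C hC using hC
  set C₀ := ∑ n ∈ Finset.Ico 1 M, S n / ((n : ℝ) * (n + 1)) with hC0
  have bound : ∀ N, M ≤ N → ε * A * Real.log N ≤
      C₀ + (1 - ε) * A * Real.log 2 + ∑ i ∈ Finset.range B, a i * C i := by
    intro N hN
    have hN1 : 1 ≤ N := hM1.trans hN
    have hNr : (1 : ℝ) ≤ N := by exact_mod_cast hN1
    have f1 : ∑ i ∈ Finset.range B, a i * L (u i) N = ∑ n ∈ Finset.Ico 1 (N + 1), S n / ((n : ℝ) * (n + 1)) := by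
      simp only [L, hS, Finset.mul_sum, Finset.sum_div]
      rw [Finset.sum_comm]
      refine Finset.sum_congr rfl fun n _ => Finset.sum_congr rfl fun i _ => ?_
      ring
    have f2 : A * Real.log N - ∑ i ∈ Finset.range B, a i * C i ≤ ∑ i ∈ Finset.range B, a i * L (u i) N := by
      rw [hAdef, Finset.sum_mul, ← Finset.sum_sub_distrib]
      refine Finset.sum_le_sum fun i hi => ?_
      have := mul_le_mul_of_nonneg_left (hC i hi N hN1) (ha i hi)
      linarith
    have f3 : ∑ n ∈ Finset.Ico 1 (N + 1), S n / ((n : ℝ) * (n + 1)) ≤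
        C₀ + (1 - ε) * A * (Real.log N + Real.log 2) := by
      rw [← Finset.sum_Ico_consecutive _ hM1 (by omega : M ≤ N + 1)]
      have h1 : ∑ n ∈ Finset.Ico M (N + 1), S n / ((n : ℝ) * (n + 1)) ≤
          ∑ n ∈ Finset.Ico 1 (N + 1), (1 - ε) * A * (1 / ((n : ℝ) + 1)) := by
        calc _ ≤ ∑ n ∈ Finset.Ico M (N + 1), (1 - ε) * A * (1 / ((n : ℝ) + 1)) := by
              refine Finset.sum_le_sum fun n hn => ?_
              rw [Finset.mem_Ico] at hn
              have hn1 : (1 : ℝ) ≤ n := by exact_mod_cast hM1.trans hn.1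
              have h2 := (hlt n hn.1).le
              rw [div_le_iff₀ (by positivity)]
              calc S n ≤ (1 - ε) * n * A := h2
                _ = _ := by field_simp
          _ ≤ _ := by
              apply Finset.sum_le_sum_of_subset_of_nonneg
              · exact Finset.Ico_subset_Ico_left hM1
              · intro n _ _
                positivity
      have h2 : ∑ n ∈ Finset.Ico 1 (N + 1), (1 - ε) * A * (1 / ((n : ℝ) + 1)) ≤
          (1 - ε) * A * (Real.log N + Real.log 2) := by
        rw [← Finset.mul_sum]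
        have h3 := Pool.Agent.helper92.Mertens.sum_inv_succ_le (N + 1) (by omega)
        have h4 : Real.log ((N + 1 : ℕ) : ℝ) ≤ Real.log N + Real.log 2 := by
          rw [← Real.log_mul (by positivity) (by norm_num)]
          apply Real.log_le_log (by positivity)
          push_cast; linarith
        apply mul_le_mul_of_nonneg_left _ (by positivity)
        linarith
      linarith
    have : ε * A * Real.log N = A * Real.log N - (1 - ε) * A * Real.log N := by ring
    rw [f1] at f2
    nlinarith
  have h1 : Filter.Tendsto (fun N : ℕ => ε * A * Real.log N) Filter.atTop Filter.atTop :=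
    (Real.tendsto_log_atTop.comp tendsto_natCast_atTop_atTop).const_mul_atTop (by positivity)
  have h2 := (h1.eventually (Filter.eventually_gt_atTop
    (C₀ + (1 - ε) * A * Real.log 2 + ∑ i ∈ Finset.range B, a i * C i))).and
    (Filter.eventually_ge_atTop M)
  obtain ⟨N, hN1, hN2⟩ := h2.exists
  have := bound N hN2
  linarith

end Pool.Agent.helper81.OM
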