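import Mathlib

/-!
# Two close elements at small distance

A weighted pigeonhole principle combined with averaging over the pairs in a class.
-/

set_option autoImplicit false

namespace Pool.Agent.helper81.OM

open Finset Real

variable {ι σ : Type} [Fintype ι] [DecidableEq ι] [Fintype σ] [DecidableEq σ]

/-- The certificate for the cost function `c` (of a pair of states) and the weights `lam` of the states:
for nonnegative `k`, `∑ k_j k_l c(j,l) ≤ (∑ k_j) (∑ lam_j k_j)`. -/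
def Cert (c : σ → σ → ℝ) (lam : σ → ℝ) : Prop :=
  ∀ k : σ → ℝ, (∀ j, 0 ≤ k j) → ∑ j, ∑ l, k j * k l * c j l ≤ (∑ j, k j) * ∑ j, lam j * k j

omit [Fintype ι] [DecidableEq ι] in
lemma sum_comp_card (S : Finset (ι → σ)) (i : ι) (φ : σ → ℝ) :
    ∑ x ∈ S, φ (x i) = ∑ j, ((S.filter fun x => x i = j).card : ℝ) * φ j := by
  rw [← Finset.sum_fiberwise S (fun x => x i)]
  refine Finset.sum_congr rfl fun j _ => ?_
  rw [Finset.sum_congr rfl (g := fun _ => φ j) (by
    intro x hx; rw [(Finset.mem_filter.1 hx).2])]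
  rw [Finset.sum_const, nsmul_eq_mul]


omit [DecidableEq ι] in
lemma plotkin (c : ι → σ → σ → ℝ) (lam : ι → σ → ℝ) (hcert : ∀ i, Cert (c i) (lam i))
    (hdiag : ∀ i j, c i j j = 0) (S : Finset (ι → σ)) (hS : 2 ≤ S.card) (β : ℝ)
    (hβ : ∀ x ∈ S, ∑ i, lam i (x i) ≤ β) :
    ∃ x ∈ S, ∃ x' ∈ S, x ≠ x' ∧
      ∑ i, c i (x i) (x' i) ≤ (S.card : ℝ) / (S.card - 1) * β := by
  by_contra hcon
  push Not at hcon
  have hM : (2 : ℝ) ≤ S.card := by exact_mod_cast hS
  set M : ℝ := ((S.card : ℕ) : ℝ) with hMdef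
  -- upper bound
  have h1 : ∑ x ∈ S, ∑ x' ∈ S, ∑ i, c i (x i) (x' i) ≤ M * (M * β) := by
    have e1 : ∑ x ∈ S, ∑ x' ∈ S, ∑ i, c i (x i) (x' i) =
        ∑ i, ∑ j, ∑ l, ((S.filter fun x => x i = j).card : ℝ) * ((S.filter fun x => x i = l).card : ℝ) * c i j l := by
      have : ∀ x ∈ S, ∑ x' ∈ S, ∑ i, c i (x i) (x' i) = ∑ i, ∑ x' ∈ S, c i (x i) (x' i) := by
        intro x _; rw [Finset.sum_comm]
      rw [Finset.sum_congr rfl this, Finset.sum_comm]
      refine Finset.sum_congr rfl fun i _ => ?_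
      rw [sum_comp_card S i (fun j => ∑ x' ∈ S, c i j (x' i))]
      refine Finset.sum_congr rfl fun j _ => ?_
      rw [sum_comp_card S i (fun l => c i j l), Finset.mul_sum]
      refine Finset.sum_congr rfl fun l _ => ?_
      ring
    rw [e1]
    have e2 : ∀ i ∈ (Finset.univ : Finset ι), ∑ j, ∑ l, ((S.filter fun x => x i = j).card : ℝ) * ((S.filter fun x => x i = l).card : ℝ) * c i j l ≤
        M * ∑ x ∈ S, lam i (x i) := by
      intro i _
      have := hcert i (fun j => ((S.filter fun x => x i = j).card : ℝ)) (fun j => by positivity)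
      refine this.trans (le_of_eq ?_)
      have h3 : (∑ j, ((S.filter fun x => x i = j).card : ℝ)) = M := by
        have := sum_comp_card S i (fun _ => (1 : ℝ))
        simp only [mul_one, Finset.sum_const, nsmul_eq_mul] at this
        rw [hMdef, ← this]
      rw [h3, sum_comp_card S i (lam i)]
      congr 1
      refine Finset.sum_congr rfl fun j _ => ?_
      ring
    refine (Finset.sum_le_sum e2).trans ?_
    rw [← Finset.mul_sum]
    apply mul_le_mul_of_nonneg_left _ (by linarith)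
    rw [Finset.sum_comm]
    calc ∑ x ∈ S, ∑ i, lam i (x i) ≤ ∑ x ∈ S, β := Finset.sum_le_sum hβ
      _ = M * β := by rw [Finset.sum_const, nsmul_eq_mul]
  -- lower bound
  obtain ⟨a, ha, b, hb, hab⟩ := Finset.one_lt_card.1 (by omega : 1 < S.card)
  have h2 : M * (M * β) < ∑ x ∈ S, ∑ x' ∈ S, ∑ i, c i (x i) (x' i) := by
    have e3 : ∀ x ∈ S, M * β < ∑ x' ∈ S, ∑ i, c i (x i) (x' i) := by
      intro x hx
      rw [← Finset.add_sum_erase S _ hx]
      have e4 : ∑ i, c i (x i) (x i) = 0 := Finset.sum_eq_zero fun i _ => hdiag i _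
      rw [e4, zero_add]
      have e5 : ∑ x' ∈ S.erase x, (M / (M - 1) * β) < ∑ x' ∈ S.erase x, ∑ i, c i (x i) (x' i) := by
        apply Finset.sum_lt_sum_of_nonempty
        · rw [Finset.Nonempty]
          by_cases hax : a = x
          · exact ⟨b, Finset.mem_erase.2 ⟨fun h => hab (hax.trans h.symm), hb⟩⟩
          · exact ⟨a, Finset.mem_erase.2 ⟨hax, ha⟩⟩
        · intro x' hx'
          rw [Finset.mem_erase] at hx'
          exact hcon x hx x' hx'.2 (fun h => hx'.1 h.symm)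
      rw [Finset.sum_const, nsmul_eq_mul, Finset.card_erase_of_mem hx, Nat.cast_sub (by omega)] at e5
      refine lt_of_le_of_lt (le_of_eq ?_) e5
      have : M - 1 ≠ 0 := by linarith
      rw [← hMdef]
      push_cast
      field_simp
    have e6 : ∑ x ∈ S, M * β < ∑ x ∈ S, ∑ x' ∈ S, ∑ i, c i (x i) (x' i) :=
      Finset.sum_lt_sum_of_nonempty ⟨a, ha⟩ e3
    rwa [Finset.sum_const, nsmul_eq_mul] at e6
  linarith

/-- Two elements which are close and have small distance. -/
theorem exists_pair (c : ι → σ → σ → ℝ) (lam : ι → σ → ℝ) (hcert : ∀ i, Cert (c i) (lam i))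
    (hdiag : ∀ i j, c i j j = 0) (r : ι → ℝ) (hr : ∀ i, Real.exp (r i) ≤ ∑ j, Real.exp (-lam i j))
    (hlam : ∀ i j, 0 ≤ lam i j) (Λ : ℝ) (hΛ : ∀ x : ι → σ, ∑ i, lam i (x i) ≤ Λ)
    (w : (ι → σ) → ℝ) (T : ℝ) (hw0 : ∀ x, 0 ≤ w x) (hT : ∀ x, w x ≤ T)
    (m : ℕ) (hm : 2 ≤ m) (hbig : (m : ℝ) ^ 2 * (Λ + 1) ≤ Real.exp (∑ i, r i)) :
    ∃ (Q : ℝ) (x x' : ι → σ), x ≠ x' ∧ 0 < Q ∧ |w x - w x'| ≤ 1 / Q ∧
      ∑ i, r i - Real.log (Λ + 1) - Real.log (m * (T + 1)) ≤ Real.log Q ∧
      Real.log Q ≤ Fintype.card ι * Real.log (Fintype.card σ) ∧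
      ∑ i, r i - (Λ + m) / (m - 1) - Real.log (Λ + 1) - Real.log (m * (T + 1)) ≤
        Real.log Q - ∑ i, c i (x i) (x' i) := by
  have hm2 : (2 : ℝ) ≤ m := by exact_mod_cast hm
  -- the total weight
  have hZ : Real.exp (∑ i, r i) ≤ ∑ x : ι → σ, Real.exp (-∑ i, lam i (x i)) := by
    have h1 : ∏ i, Real.exp (r i) ≤ ∏ i, ∑ j, Real.exp (-lam i j) :=
      Finset.prod_le_prod (fun i _ => (Real.exp_pos _).le) (fun i _ => hr i)
    rw [Finset.prod_univ_sum, Fintype.piFinset_univ] at h1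
    rw [Real.exp_sum]
    refine h1.trans (le_of_eq ?_)
    refine Finset.sum_congr rfl fun x _ => ?_
    rw [← Real.exp_sum, Finset.sum_neg_distrib]
  have hne : Nonempty (ι → σ) := by
    by_contra hemp
    rw [not_nonempty_iff] at hemp
    have h0 : ∑ x : ι → σ, Real.exp (-∑ i, lam i (x i)) = 0 := by
      have := hemp
      exact Fintype.sum_empty _
    rw [h0] at hZ
    exact absurd hZ (not_le.2 (Real.exp_pos _))
  obtain ⟨x₀⟩ := hne
  have hlam0 : ∀ x : ι → σ, 0 ≤ ∑ i, lam i (x i) := fun x => Finset.sum_nonneg fun i _ => hlam i _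
  have hΛ0 : 0 ≤ Λ := (hlam0 x₀).trans (hΛ x₀)
  have hT0 : 0 ≤ T := (hw0 x₀).trans (hT x₀)
  -- a bucket for `lam`
  obtain ⟨b, hb, hbsum⟩ := Finset.exists_le_sum_fiber_of_maps_to_of_nsmul_le_sum
    (s := (Finset.univ : Finset (ι → σ))) (t := Finset.range (⌊Λ⌋₊ + 1))
    (f := fun x => ⌊∑ i, lam i (x i)⌋₊) (w := fun x => Real.exp (-∑ i, lam i (x i)))
    (b := Real.exp (∑ i, r i) / (Λ + 1))
    (by
      intro x _
      rw [Finset.mem_range, Nat.lt_succ_iff]
      exact Nat.floor_mono (hΛ x)) ⟨0, by simp⟩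
    (by
      rw [Finset.card_range, nsmul_eq_mul]
      refine le_trans ?_ hZ
      rw [← mul_div_assoc, div_le_iff₀ (by linarith), mul_comm]
      apply mul_le_mul_of_nonneg_left _ (Real.exp_pos _).le
      push_cast
      have := Nat.floor_le hΛ0
      linarith)
  set Xb := (Finset.univ : Finset (ι → σ)).filter fun x => ⌊∑ i, lam i (x i)⌋₊ = b with hXb
  have hbΛ : (b : ℝ) ≤ Λ := by
    rw [Finset.mem_range, Nat.lt_succ_iff] at hb
    exact le_trans (by exact_mod_cast hb) (Nat.floor_le hΛ0)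
  have hcard : Real.exp (∑ i, r i + b) / (Λ + 1) ≤ Xb.card := by
    have h1 : ∑ x ∈ Xb, Real.exp (-∑ i, lam i (x i)) ≤ ∑ x ∈ Xb, Real.exp (-(b : ℝ)) := by
      refine Finset.sum_le_sum fun x hx => ?_
      rw [hXb, Finset.mem_filter, Nat.floor_eq_iff (hlam0 x)] at hx
      apply Real.exp_le_exp.2
      linarith [hx.2.1]
    rw [Finset.sum_const, nsmul_eq_mul] at h1
    have h2 := hbsum.trans h1
    rw [Real.exp_neg, ← div_eq_mul_inv, le_div_iff₀ (Real.exp_pos _)] at h2
    rw [Real.exp_add]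
    calc _ = Real.exp (∑ i, r i) / (Λ + 1) * Real.exp b := by ring
      _ ≤ _ := h2
  have hXbbig : (m : ℝ) ^ 2 ≤ Xb.card := by
    refine le_trans ?_ hcard
    rw [le_div_iff₀ (by linarith)]
    refine hbig.trans ?_
    apply Real.exp_le_exp.2
    have : (0 : ℝ) ≤ b := by positivity
    linarith
  have hXb0 : (0 : ℝ) < Xb.card := by nlinarith
  set Q : ℝ := Xb.card / (m * (T + 1)) with hQ
  have hQ0 : 0 < Q := by positivity
  -- a bucket for `w`
  obtain ⟨t, ht, htcard⟩ := Finset.exists_lt_card_fiber_of_mul_lt_card_of_maps_to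
    (s := Xb) (t := Finset.range (⌊T * Q⌋₊ + 1)) (f := fun x => ⌊w x * Q⌋₊) (n := m - 1)
    (by
      intro x _
      rw [Finset.mem_range, Nat.lt_succ_iff]
      apply Nat.floor_mono
      have := hT x
      gcongr)
    (by
      rw [Finset.card_range]
      have h1 : ((⌊T * Q⌋₊ : ℕ) : ℝ) ≤ T * Q := Nat.floor_le (by positivity)
      have h2 : T * Q ≤ Xb.card / m := by
        rw [hQ, ← mul_div_assoc, div_le_div_iff₀ (by positivity) (by positivity)]
        have : 0 ≤ (Xb.card : ℝ) * m := by positivity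
        nlinarith
      have h3 : (((⌊T * Q⌋₊ + 1) * (m - 1) : ℕ) : ℝ) < Xb.card := by
        push_cast [Nat.cast_sub (by omega : 1 ≤ m)]
        have h4 : ((⌊T * Q⌋₊ : ℝ) + 1) * (m - 1) ≤ (Xb.card / m + 1) * (m - 1) := by
          apply mul_le_mul_of_nonneg_right _ (by linarith)
          linarith
        refine lt_of_le_of_lt h4 ?_
        have h5 : (m : ℝ) ≤ Xb.card / m := by
          rw [le_div_iff₀ (by linarith)]; nlinarith
        have h6 : (Xb.card : ℝ) = m * (Xb.card / m) := by field_simp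
        nlinarith
      exact_mod_cast h3)
  set S := Xb.filter fun x => ⌊w x * Q⌋₊ = t with hS
  have hSm : m ≤ S.card := by omega
  have hSmr : (m : ℝ) ≤ S.card := by exact_mod_cast hSm
  obtain ⟨x, hx, x', hx', hxx', hcost⟩ := plotkin c lam hcert hdiag S (by omega) (b + 1) (by
    intro x hx
    rw [hS, Finset.mem_filter, hXb, Finset.mem_filter, Nat.floor_eq_iff (hlam0 x)] at hx
    exact hx.1.2.2.le)
  have hclose : |w x - w x'| ≤ 1 / Q := by
    rw [hS, Finset.mem_filter, Nat.floor_eq_iff (mul_nonneg (hw0 x) hQ0.le)] at hx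
    rw [hS, Finset.mem_filter, Nat.floor_eq_iff (mul_nonneg (hw0 x') hQ0.le)] at hx'
    rw [le_div_iff₀ hQ0, ← abs_of_pos hQ0, ← abs_mul, abs_le]
    constructor <;> nlinarith [hx.2.1, hx.2.2, hx'.2.1, hx'.2.2]
  have hlogQ : Real.log Q = Real.log Xb.card - Real.log (m * (T + 1)) := by
    rw [hQ, Real.log_div hXb0.ne' (by positivity)]
  have hlogX : ∑ i, r i + b - Real.log (Λ + 1) ≤ Real.log Xb.card := by
    have := Real.log_le_log (by positivity) hcard
    rwa [Real.log_div (Real.exp_pos _).ne' (by linarith), Real.log_exp] at this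
  have hb0 : (0 : ℝ) ≤ b := by positivity
  refine ⟨Q, x, x', hxx', hQ0, hclose, ?_, ?_, ?_⟩
  · rw [hlogQ]; linarith
  · have h1 : (Xb.card : ℝ) ≤ (Fintype.card σ : ℝ) ^ Fintype.card ι := by
      have h2 : Xb.card ≤ Fintype.card (ι → σ) := Finset.card_le_univ _
      rw [Fintype.card_fun] at h2
      exact_mod_cast h2
    have h3 := Real.log_le_log hXb0 h1
    rw [Real.log_pow] at h3
    have h4 : 0 ≤ Real.log (m * (T + 1)) := Real.log_nonneg (by nlinarith)
    rw [hlogQ]; linarith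
  · have h1 : (S.card : ℝ) / (S.card - 1) ≤ m / (m - 1) := by
      rw [div_le_div_iff₀ (by linarith) (by linarith)]
      nlinarith
    have h2 : ∑ i, c i (x i) (x' i) ≤ m / (m - 1) * (b + 1) := by
      refine hcost.trans ?_
      apply mul_le_mul_of_nonneg_right h1 (by linarith)
    have h3 : (m : ℝ) / (m - 1) * (b + 1) = (b + 1) + (b + 1) / (m - 1) := by
      have : (m : ℝ) - 1 ≠ 0 := by linarith
      field_simp
      ring
    have h4 : ((b : ℝ) + 1) / (m - 1) ≤ (Λ + 1) / (m - 1) := by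
      apply div_le_div_of_nonneg_right _ (by linarith)
      linarith
    have h5 : (Λ + m) / (m - 1) = 1 + (Λ + 1) / (m - 1) := by
      have : (m : ℝ) - 1 ≠ 0 := by linarith
      field_simp
      ring
    rw [hlogQ, h5]
    linarith

end Pool.Agent.helper81.OM
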