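import Mathlib

/-!
# From two close products of primes to an admissible triple
-/

set_option autoImplicit false

namespace Pool.Agent.helper81.OM

open Finset Real

/-- The radical of `n`: the product of the distinct primes dividing `n`. -/
def rad (n : ℕ) : ℕ := ∏ p ∈ n.primeFactors, p

/-- `H n = rad n / (log (rad n)) ^ ω(n)`. -/
noncomputable def H (n : ℕ) : ℝ := (rad n : ℝ) / Real.log (rad n) ^ n.primeFactors.card

lemma rad_pos (n : ℕ) : 0 < rad n := Finset.prod_pos fun _ hp => Nat.pos_of_mem_primeFactors hp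

lemma rad_le (n : ℕ) (hn : n ≠ 0) : rad n ≤ n :=
  Nat.le_of_dvd (Nat.pos_of_ne_zero hn) (Nat.prod_primeFactors_dvd n)

lemma div_log_pow_mono {R G : ℝ} {k : ℕ} (hR : 1 < R) (hRG : R ≤ G) (hk : (k : ℝ) ≤ Real.log R) :
    R / Real.log R ^ k ≤ G / Real.log G ^ k := by
  have ha : 0 < Real.log R := Real.log_pos hR
  have hab : Real.log R ≤ Real.log G := Real.log_le_log (by linarith) hRG
  have hb : 0 < Real.log G := lt_of_lt_of_le ha hab
  set a := Real.log R with haa
  set b := Real.log G with hbb
  have hRe : R = Real.exp a := (Real.exp_log (by linarith)).symm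
  have hGe : G = Real.exp b := (Real.exp_log (by linarith)).symm
  have h1 : b / a ≤ Real.exp (b / a - 1) := by
    have := Real.add_one_le_exp (b / a - 1)
    linarith
  have h2 : (b / a) ^ k ≤ Real.exp (b - a) := by
    calc (b / a) ^ k ≤ (Real.exp (b / a - 1)) ^ k := by gcongr
      _ = Real.exp (k * (b / a - 1)) := by rw [← Real.exp_nat_mul]
      _ ≤ Real.exp (b - a) := by
        apply Real.exp_le_exp.mpr
        have h3 : 0 ≤ b / a - 1 := by
          rw [sub_nonneg, one_le_div ha]; exact hab
        calc (k : ℝ) * (b / a - 1) ≤ a * (b / a - 1) := by gcongr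
          _ = b - a := by field_simp
  rw [div_le_div_iff₀ (by positivity) (by positivity)]
  rw [div_pow, div_le_iff₀ (by positivity)] at h2
  rw [hRe, hGe]
  calc Real.exp a * b ^ k ≤ Real.exp a * (Real.exp (b - a) * a ^ k) := by gcongr
    _ = Real.exp b * a ^ k := by
      rw [← mul_assoc, ← Real.exp_add]; congr 2; ring

lemma H_pos {n : ℕ} (h : 1 < rad n) : 0 < H n := by
  unfold H
  have h1 : (1 : ℝ) < rad n := by exact_mod_cast h
  have := Real.log_pos h1
  positivity

/-- The bound for `H` of the triple `(C, A - C, A)`. -/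
theorem H_triple (A C : ℕ) (hC : 0 < C) (hCA : C < A) (hcop : Nat.Coprime A C)
    (h3 : ∀ p ∈ (A * C).primeFactors, 3 ≤ p) (Q : ℝ) (hQ : 0 < Q)
    (hclose : Real.log A - Real.log C ≤ 1 / Q) :
    (A * C).primeFactors.card ≤ ∑ p ∈ (A * C).primeFactors, Real.log p ∧
    0 < H (C * (A - C) * A) ∧
    1 ≤ ∑ p ∈ (A * C).primeFactors, Real.log p ∧
    ∑ p ∈ (A * C).primeFactors, Real.log p ≤
      ∑ p ∈ (A * C).primeFactors, Real.log p + Real.log A - Real.log Q ∧
    Real.log (H (C * (A - C) * A)) ≤
      ∑ p ∈ (A * C).primeFactors, Real.log p + Real.log A - Real.log Q -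
      (A * C).primeFactors.card *
        Real.log (∑ p ∈ (A * C).primeFactors, Real.log p + Real.log A - Real.log Q) := by
  set D := (A * C).primeFactors with hD
  set S := ∑ p ∈ D, Real.log p with hS
  have hA0 : 0 < A := by omega
  have hApos : (0 : ℝ) < A := by exact_mod_cast hA0
  have hCpos : (0 : ℝ) < C := by exact_mod_cast hC
  have hDpr : ∀ p ∈ D, p.Prime := fun p hp => Nat.prime_of_mem_primeFactors hp
  have hlog1 : ∀ p ∈ D, (1 : ℝ) ≤ Real.log p := by
    intro p hp
    have h3' : (3 : ℝ) ≤ p := by exact_mod_cast h3 p hp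
    rw [Real.le_log_iff_exp_le (by linarith)]
    have := Real.exp_one_lt_d9
    linarith
  have hcard : (D.card : ℝ) ≤ S := by
    have := Finset.sum_le_sum hlog1
    simpa using this
  have hDne : D.Nonempty := by
    rw [hD, Nat.nonempty_primeFactors]
    nlinarith
  have hS1 : 1 ≤ S := by
    have : 1 ≤ D.card := hDne.card_pos
    have : (1 : ℝ) ≤ D.card := by exact_mod_cast this
    linarith
  set b := A - C with hb
  have hb0 : 0 < b := by omega
  have hbA : (b : ℝ) ≤ A / Q := by
    have h1 : Real.log (C / A) = Real.log C - Real.log A := Real.log_div hCpos.ne' hApos.ne'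
    have h2 : 1 - 1 / Q ≤ C / A := by
      have h3 := Real.add_one_le_exp (-(1 / Q))
      have h4 : Real.exp (-(1 / Q)) ≤ C / A := by
        rw [← Real.le_log_iff_exp_le (by positivity), h1]; linarith
      linarith
    rw [hb, Nat.cast_sub hCA.le]
    rw [le_div_iff₀ hApos] at h2
    have : (A : ℝ) / Q = A * (1 / Q) := by ring
    rw [this]; linarith
  have hcopb : Nat.Coprime (A * C) b := by
    apply Nat.Coprime.mul_left
    · exact (Nat.coprime_self_sub_right hCA.le).2 hcop
    · have := (Nat.coprime_sub_self_right hCA.le).2 hcop.symm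
      exact this
  have hprod : C * b * A = A * C * b := by ring
  have hpf : (C * b * A).primeFactors = D ∪ b.primeFactors := by
    rw [hprod, Nat.Coprime.primeFactors_mul hcopb]
  have hdisj : Disjoint D b.primeFactors := hcopb.disjoint_primeFactors
  have hrad : rad (C * b * A) = (∏ p ∈ D, p) * rad b := by
    unfold rad
    rw [hpf, Finset.prod_union hdisj]
  set PD : ℕ := ∏ p ∈ D, p with hPD
  have hPD0 : 0 < PD := Finset.prod_pos fun p hp => (hDpr p hp).pos
  have hPDr : (0 : ℝ) < PD := by exact_mod_cast hPD0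
  have hlogPD : Real.log PD = S := by
    rw [hPD, hS, Nat.cast_prod, Real.log_prod]
    intro p hp
    have := (hDpr p hp).pos
    positivity
  set R : ℝ := (rad (C * b * A) : ℝ) with hR
  have hPDR : (PD : ℝ) ≤ R := by
    rw [hR, hrad]; push_cast
    have : (1 : ℝ) ≤ rad b := by exact_mod_cast rad_pos b
    nlinarith
  set G : ℝ := PD * (A / Q) with hG
  have hRG : R ≤ G := by
    rw [hR, hrad, hG]; push_cast
    have h1 : (rad b : ℝ) ≤ b := by exact_mod_cast rad_le b hb0.ne'
    have h2 : (rad b : ℝ) ≤ A / Q := h1.trans hbA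
    gcongr
  have hSR : S ≤ Real.log R := by
    rw [← hlogPD]; exact Real.log_le_log hPDr hPDR
  have hR1 : 1 < R := by
    by_contra hcon
    push Not at hcon
    have : Real.log R ≤ 0 := Real.log_nonpos (le_trans hPDr.le hPDR) hcon
    linarith
  have hGpos : 0 < G := by linarith
  have hlogG : Real.log G = S + Real.log A - Real.log Q := by
    rw [hG, Real.log_mul hPDr.ne' (by positivity), Real.log_div hApos.ne' hQ.ne', hlogPD]
    ring
  have hRlogG : Real.log R ≤ Real.log G := Real.log_le_log (by linarith) hRG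
  have hcardle : D.card ≤ (C * b * A).primeFactors.card := by
    rw [hpf]; exact Finset.card_le_card Finset.subset_union_left
  have hR1' : 1 < rad (C * b * A) := by
    rw [hR] at hR1
    exact_mod_cast hR1
  have hH0 : 0 < H (C * b * A) := H_pos hR1'
  refine ⟨hcard, hH0, hS1, ?_, ?_⟩
  · rw [← hlogG]; linarith
  · have s1 : H (C * b * A) ≤ R / Real.log R ^ D.card := by
      unfold H
      rw [← hR]
      apply div_le_div_of_nonneg_left (by linarith) (pow_pos (by linarith) _)
      exact pow_le_pow_right₀ (by linarith) hcardle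
    have s2 : R / Real.log R ^ D.card ≤ G / Real.log G ^ D.card :=
      div_log_pow_mono hR1 hRG (by linarith)
    have s3 := Real.log_le_log hH0 (s1.trans s2)
    rw [Real.log_div hGpos.ne' (pow_pos (by linarith) _).ne', Real.log_pow, hlogG] at s3
    exact s3

/-! ### Products of primes -/

variable {N : ℕ}

/-- the logarithm of `∏ p ^ x_p` -/
noncomputable def wt (P : Finset ℕ) (x : P → Fin N) : ℝ := ∑ p : P, ((x p : ℕ) : ℝ) * Real.log (p : ℕ)

/-- From two different families of exponents. -/
theorem exists_coprime (P : Finset ℕ) (hP : ∀ p ∈ P, p.Prime) (x x' : P → Fin N) (hx : x ≠ x') :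
    ∃ A C : ℕ, 0 < C ∧ C < A ∧ Nat.Coprime A C ∧
      (A * C).primeFactors = ((Finset.univ : Finset P).filter fun p => x p ≠ x' p).map
        (Function.Embedding.subtype _) ∧
      Real.log A - Real.log C = |wt P x - wt P x'| ∧
      Real.log A + Real.log C = ∑ p : P, |((x p : ℕ) : ℝ) - ((x' p : ℕ) : ℝ)| * Real.log (p : ℕ) := by
  set D := ((Finset.univ : Finset P).filter fun p => x p ≠ x' p).map
        (Function.Embedding.subtype _) with hD
  set U : ℕ := ∏ p : P, (p : ℕ) ^ ((x p : ℕ) - (x' p : ℕ)) with hU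
  set V : ℕ := ∏ p : P, (p : ℕ) ^ ((x' p : ℕ) - (x p : ℕ)) with hV
  have hpos : ∀ p : P, 0 < (p : ℕ) := fun p => (hP p p.2).pos
  have hU0 : 0 < U := Finset.prod_pos fun p _ => pow_pos (hpos p) _
  have hV0 : 0 < V := Finset.prod_pos fun p _ => pow_pos (hpos p) _
  have hlogU : Real.log U = ∑ p : P, (((x p : ℕ) - (x' p : ℕ) : ℕ) : ℝ) * Real.log (p : ℕ) := by
    rw [hU, Nat.cast_prod, Real.log_prod]
    · refine Finset.sum_congr rfl fun p _ => ?_
      push_cast
      rw [Real.log_pow]
    · intro p _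
      have := hpos p
      positivity
  have hlogV : Real.log V = ∑ p : P, (((x' p : ℕ) - (x p : ℕ) : ℕ) : ℝ) * Real.log (p : ℕ) := by
    rw [hV, Nat.cast_prod, Real.log_prod]
    · refine Finset.sum_congr rfl fun p _ => ?_
      push_cast
      rw [Real.log_pow]
    · intro p _
      have := hpos p
      positivity
  have hcop : Nat.Coprime U V := by
    apply Nat.Coprime.prod_left
    intro p _
    apply Nat.Coprime.prod_right
    intro q _
    by_cases hpq : p = q
    · subst hpq
      rcases Nat.le_total (x p : ℕ) (x' p : ℕ) with h | h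
      · rw [Nat.sub_eq_zero_of_le h, pow_zero]; exact Nat.coprime_one_left _
      · rw [Nat.sub_eq_zero_of_le h, pow_zero]; exact Nat.coprime_one_right _
    · apply Nat.Coprime.pow
      rw [Nat.coprime_primes (hP p p.2) (hP q q.2)]
      exact fun h => hpq (Subtype.ext h)
  have hpf : (U * V).primeFactors = D := by
    have hUV : U * V = ∏ p : P, (p : ℕ) ^ (((x p : ℕ) - (x' p : ℕ)) + ((x' p : ℕ) - (x p : ℕ))) := by
      rw [hU, hV, ← Finset.prod_mul_distrib]
      refine Finset.prod_congr rfl fun p _ => ?_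
      rw [pow_add]
    ext q
    rw [Nat.mem_primeFactors, hD, Finset.mem_map]
    constructor
    · rintro ⟨hq, hdvd, -⟩
      rw [hUV, hq.prime.dvd_finsetProd_iff] at hdvd
      obtain ⟨p, -, hp⟩ := hdvd
      have h1 : q = (p : ℕ) := (Nat.prime_dvd_prime_iff_eq hq (hP p p.2)).1 (hq.dvd_of_dvd_pow hp)
      refine ⟨p, ?_, h1.symm⟩
      rw [Finset.mem_filter]
      refine ⟨Finset.mem_univ _, fun hxx => ?_⟩
      rw [hxx] at hp
      simp at hp
      exact hq.one_lt.ne' hp
    · rintro ⟨p, hp, rfl⟩
      rw [Finset.mem_filter] at hp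
      refine ⟨hP p p.2, ?_, by positivity⟩
      rw [hUV]
      refine dvd_trans ?_ (Finset.dvd_prod_of_mem _ (Finset.mem_univ p))
      apply dvd_pow_self
      have : (x p : ℕ) ≠ (x' p : ℕ) := fun h => hp.2 (Fin.ext h)
      omega
  have hDne : D.Nonempty := by
    rw [hD, Finset.map_nonempty]
    obtain ⟨p, hp⟩ := Function.ne_iff.1 hx
    exact ⟨p, Finset.mem_filter.2 ⟨Finset.mem_univ _, hp⟩⟩
  have hUV : U ≠ V := by
    intro h
    rw [h] at hcop
    have h1 : V = 1 := by simpa using hcop
    rw [← hpf, h, h1] at hDne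
    simp at hDne
  have hsub : ∀ a b : ℕ, ((a - b : ℕ) : ℝ) - ((b - a : ℕ) : ℝ) = (a : ℝ) - b := by
    intro a b
    rcases Nat.le_total a b with h | h
    · rw [Nat.sub_eq_zero_of_le h, Nat.cast_sub h]; push_cast; ring
    · rw [Nat.sub_eq_zero_of_le h, Nat.cast_sub h]; push_cast; ring
  have habs : ∀ a b : ℕ, ((a - b : ℕ) : ℝ) + ((b - a : ℕ) : ℝ) = |(a : ℝ) - b| := by
    intro a b
    rcases Nat.le_total a b with h | h
    · have h' : (a : ℝ) ≤ b := by exact_mod_cast h
      rw [Nat.sub_eq_zero_of_le h, Nat.cast_sub h, abs_of_nonpos (by linarith)]; push_cast; ring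
    · have h' : (b : ℝ) ≤ a := by exact_mod_cast h
      rw [Nat.sub_eq_zero_of_le h, Nat.cast_sub h, abs_of_nonneg (by linarith)]; push_cast; ring
  have hdiff : Real.log U - Real.log V = wt P x - wt P x' := by
    rw [hlogU, hlogV, wt, wt, ← Finset.sum_sub_distrib, ← Finset.sum_sub_distrib]
    refine Finset.sum_congr rfl fun p _ => ?_
    rw [← sub_mul, hsub, sub_mul]
  have hsum : Real.log U + Real.log V =
      ∑ p : P, |((x p : ℕ) : ℝ) - ((x' p : ℕ) : ℝ)| * Real.log (p : ℕ) := by
    rw [hlogU, hlogV, ← Finset.sum_add_distrib]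
    refine Finset.sum_congr rfl fun p _ => ?_
    rw [← add_mul, habs]
  rcases lt_or_gt_of_ne hUV with h | h
  · refine ⟨V, U, hU0, h, hcop.symm, by rw [mul_comm, hpf], ?_, by rw [add_comm, hsum]⟩
    have h1 : Real.log U < Real.log V := Real.log_lt_log (by exact_mod_cast hU0) (by exact_mod_cast h)
    rw [abs_of_nonpos (by linarith)]
    linarith
  · refine ⟨U, V, hV0, h, hcop, hpf, ?_, hsum⟩
    have h1 : Real.log V < Real.log U := Real.log_lt_log (by exact_mod_cast hV0) (by exact_mod_cast h)
    rw [abs_of_nonneg (by linarith)]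
    linarith

end Pool.Agent.helper81.OM
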