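import Mathlib
import Pool.Agent.helper81.OM.Comb
import Pool.Agent.helper81.OM.Triple

/-!
# The primes at scale `n` and their classes
-/

set_option autoImplicit false

namespace Pool.Agent.helper81.OM

open Finset Real Chebyshev

/-- the primes used: `n ^ (1 - ε) < p ≤ e ^ Y * n` -/
noncomputable def PS (Y ε : ℝ) (n : ℕ) : Finset ℕ :=
  (Nat.primesLE ⌊Real.exp Y * n⌋₊).filter fun p => (1 - ε) * Real.log n < Real.log p

/-- the class of a prime: the first `i` with `p ≤ e ^ (y i) * n` -/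
noncomputable def idx (y : ℕ → ℝ) (n p : ℕ) : ℕ := by
  classical
  exact if h : ∃ i, (p : ℝ) ≤ Real.exp (y i) * n then Nat.find h else 0

variable {y r : ℕ → ℝ} {B n : ℕ} {ε : ℝ}

lemma idx_spec {p : ℕ} (hp : (p : ℝ) ≤ Real.exp (y B) * n) :
    idx y n p ≤ B ∧ (p : ℝ) ≤ Real.exp (y (idx y n p)) * n ∧
      ∀ j < idx y n p, Real.exp (y j) * n < p := by
  classical
  have h : ∃ i, (p : ℝ) ≤ Real.exp (y i) * n := ⟨B, hp⟩
  unfold idx
  rw [dif_pos h]
  refine ⟨Nat.find_min' h hp, Nat.find_spec h, fun j hj => ?_⟩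
  have := Nat.find_min h hj
  exact not_le.1 this

lemma mem_PS {Y : ℝ} {p : ℕ} (hp : p ∈ PS Y ε n) :
    p.Prime ∧ (p : ℝ) ≤ Real.exp Y * n ∧ (1 - ε) * Real.log n < Real.log p := by
  unfold PS at hp
  rw [Finset.mem_filter, Nat.mem_primesLE] at hp
  refine ⟨hp.1.2, ?_, hp.2⟩
  exact (Nat.le_floor_iff (by positivity)).1 hp.1.1

lemma y_mono (hy : ∀ i < B, y i ≤ y (i + 1)) {i j : ℕ} (hij : i ≤ j) (hj : j ≤ B) : y i ≤ y j := by
  induction j, hij using Nat.le_induction with
  | base => exact le_rfl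
  | succ j hij ih => exact (ih (by omega)).trans (hy j (by omega))

lemma r_anti (hr : ∀ i ≤ B, r (i + 1) ≤ r i) {i j : ℕ} (hij : i ≤ j) (hj : j ≤ B + 1) : r j ≤ r i := by
  induction j, hij using Nat.le_induction with
  | base => exact le_rfl
  | succ j hij ih => exact (hr j (by omega)).trans (ih (by omega))

/-- `r` at the class of `p` as a sum over the thresholds. -/
lemma r_idx (hy : ∀ i < B, y i ≤ y (i + 1)) (hrB : r (B + 1) = 0) {p : ℕ}
    (hp : (p : ℝ) ≤ Real.exp (y B) * n) :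
    r (idx y n p) = ∑ i ∈ Finset.range (B + 1),
      (r i - r (i + 1)) * (if (p : ℝ) ≤ Real.exp (y i) * n then 1 else 0) := by
  obtain ⟨h1, h2, h3⟩ := idx_spec (y := y) (B := B) hp
  set k := idx y n p with hk
  rw [← Finset.sum_range_add_sum_Ico _ (by omega : k ≤ B + 1)]
  have e1 : ∑ i ∈ Finset.range k, (r i - r (i + 1)) * (if (p : ℝ) ≤ Real.exp (y i) * n then 1 else 0) = 0 := by
    refine Finset.sum_eq_zero fun i hi => ?_
    rw [Finset.mem_range] at hi
    rw [if_neg (not_le.2 (h3 i hi)), mul_zero]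
  have e2 : ∑ i ∈ Finset.Ico k (B + 1), (r i - r (i + 1)) * (if (p : ℝ) ≤ Real.exp (y i) * n then 1 else 0) =
      ∑ i ∈ Finset.Ico k (B + 1), (r i - r (i + 1)) := by
    refine Finset.sum_congr rfl fun i hi => ?_
    rw [Finset.mem_Ico] at hi
    have h4 : y k ≤ y i := y_mono hy hi.1 (by omega)
    have h5 : (p : ℝ) ≤ Real.exp (y i) * n := by
      refine h2.trans ?_
      have := Real.exp_le_exp.2 h4
      gcongr
    rw [if_pos h5, mul_one]
  rw [e1, e2, zero_add]
  have e3 : ∀ b, k ≤ b → ∑ i ∈ Finset.Ico k b, (r i - r (i + 1)) = r k - r b := by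
    intro b hb
    induction b, hb using Nat.le_induction with
    | base => simp
    | succ b hb ih => rw [Finset.sum_Ico_succ_top hb, ih]; ring
  rw [e3 (B + 1) (by omega), hrB, sub_zero]

lemma sum_all (hy : ∀ i < B, y i ≤ y (i + 1)) (hrB : r (B + 1) = 0) :
    ∑ p ∈ Nat.primesLE ⌊Real.exp (y B) * n⌋₊, r (idx y n p) * Real.log p =
      ∑ i ∈ Finset.range (B + 1), (r i - r (i + 1)) * θ (Real.exp (y i) * n) := by
  have e1 : ∀ i ∈ Finset.range (B + 1), (r i - r (i + 1)) * θ (Real.exp (y i) * n) =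
      ∑ p ∈ Nat.primesLE ⌊Real.exp (y B) * n⌋₊,
        (r i - r (i + 1)) * (if (p : ℝ) ≤ Real.exp (y i) * n then 1 else 0) * Real.log p := by
    intro i hi
    rw [Finset.mem_range] at hi
    have hle : Real.exp (y i) * n ≤ Real.exp (y B) * n := by
      have := Real.exp_le_exp.2 (y_mono hy (by omega : i ≤ B) le_rfl)
      gcongr
    have e2 : θ (Real.exp (y i) * n) = ∑ p ∈ Nat.primesLE ⌊Real.exp (y B) * n⌋₊,
        if (p : ℝ) ≤ Real.exp (y i) * n then Real.log p else 0 := by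
      rw [Chebyshev.theta_eq_theta_coe_floor, Chebyshev.theta_eq_sum_primesLE_log, ← Finset.sum_filter]
      apply Finset.sum_congr _ (fun _ _ => rfl)
      ext p
      simp only [Nat.mem_primesLE, Finset.mem_filter]
      have hnn : (0 : ℝ) ≤ Real.exp (y i) * n := by positivity
      constructor
      · rintro ⟨h1, h2⟩
        exact ⟨⟨h1.trans (Nat.floor_mono hle), h2⟩, (Nat.le_floor_iff hnn).1 h1⟩
      · rintro ⟨⟨_, h2⟩, h3⟩
        exact ⟨(Nat.le_floor_iff hnn).2 h3, h2⟩
    rw [e2, Finset.mul_sum]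
    refine Finset.sum_congr rfl fun p _ => ?_
    split_ifs <;> ring
  rw [Finset.sum_congr rfl e1, Finset.sum_comm]
  refine Finset.sum_congr rfl fun p hp => ?_
  rw [Nat.mem_primesLE] at hp
  rw [r_idx hy hrB ((Nat.le_floor_iff (by positivity)).1 hp.1), Finset.sum_mul]

/-- The lower bound for the sum of `r` over the primes used. -/
lemma sum_r_ge (hy : ∀ i < B, y i ≤ y (i + 1)) (hyB : 0 ≤ y B) (hr : ∀ i ≤ B, r (i + 1) ≤ r i)
    (hrB : r (B + 1) = 0) (hn : 1 < n) :
    ∑ i ∈ Finset.range (B + 1), (r i - r (i + 1)) * θ (Real.exp (y i) * n) -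
      r 0 * (Real.log 4 * Real.exp ((1 - ε) * Real.log n)) ≤
    (Real.log n + y B) * ∑ p ∈ PS (y B) ε n, r (idx y n p) := by
  have hnr : (1 : ℝ) < n := by exact_mod_cast hn
  have hl : 0 < Real.log n := Real.log_pos hnr
  have hr0 : ∀ i ≤ B, 0 ≤ r i := by
    intro i hi
    have := r_anti hr (by omega : i ≤ B + 1) le_rfl
    rwa [hrB] at this
  rw [← sum_all hy hrB]
  set Pall := Nat.primesLE ⌊Real.exp (y B) * n⌋₊ with hPall
  have hmem : ∀ p ∈ Pall, p.Prime ∧ (p : ℝ) ≤ Real.exp (y B) * n := by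
    intro p hp
    rw [hPall, Nat.mem_primesLE] at hp
    exact ⟨hp.2, (Nat.le_floor_iff (by positivity)).1 hp.1⟩
  rw [← Finset.sum_filter_add_sum_filter_not Pall (fun p : ℕ => (1 - ε) * Real.log n < Real.log p)]
  have h1 : ∑ p ∈ Pall.filter (fun p : ℕ => (1 - ε) * Real.log n < Real.log p), r (idx y n p) * Real.log p ≤
      (Real.log n + y B) * ∑ p ∈ PS (y B) ε n, r (idx y n p) := by
    rw [Finset.mul_sum]
    refine Finset.sum_le_sum fun p hp => ?_
    obtain ⟨hpp, hple, -⟩ := mem_PS hp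
    have h2 : Real.log p ≤ Real.log n + y B := by
      have := Real.log_le_log (by exact_mod_cast hpp.pos) hple
      rw [Real.log_mul (Real.exp_pos _).ne' (by positivity), Real.log_exp] at this
      linarith
    have h3 := hr0 _ (idx_spec (y := y) (B := B) hple).1
    rw [mul_comm]
    gcongr
  have h2 : ∑ p ∈ Pall.filter (fun p : ℕ => ¬ (1 - ε) * Real.log n < Real.log p), r (idx y n p) * Real.log p ≤
      r 0 * (Real.log 4 * Real.exp ((1 - ε) * Real.log n)) := by
    have h3 : ∑ p ∈ Pall.filter (fun p : ℕ => ¬ (1 - ε) * Real.log n < Real.log p), r (idx y n p) * Real.log p ≤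
        ∑ p ∈ Nat.primesLE ⌊Real.exp ((1 - ε) * Real.log n)⌋₊, r 0 * Real.log p := by
      refine (Finset.sum_le_sum (g := fun p : ℕ => r 0 * Real.log (p : ℝ)) fun p hp => ?_).trans
        (Finset.sum_le_sum_of_subset_of_nonneg (f := fun p : ℕ => r 0 * Real.log (p : ℝ)) ?_ ?_)
      · rw [Finset.mem_filter] at hp
        obtain ⟨hpp, hple⟩ := hmem p hp.1
        have h4 : r (idx y n p) ≤ r 0 :=
          r_anti hr (Nat.zero_le _) (by have := (idx_spec (y := y) (B := B) hple).1; omega)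
        have h5 : 0 ≤ Real.log p := Real.log_nonneg (by exact_mod_cast hpp.one_lt.le)
        gcongr
      · intro p hp
        rw [Finset.mem_filter] at hp
        obtain ⟨hpp, hple⟩ := hmem p hp.1
        rw [Nat.mem_primesLE]
        refine ⟨?_, hpp⟩
        rw [Nat.le_floor_iff (Real.exp_pos _).le, ← Real.log_le_iff_le_exp (by exact_mod_cast hpp.pos)]
        exact not_lt.1 hp.2
      · intro p hp _
        rw [Nat.mem_primesLE] at hp
        have h5 : 0 ≤ Real.log p := Real.log_nonneg (by exact_mod_cast hp.2.one_lt.le)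
        exact mul_nonneg (hr0 0 (Nat.zero_le _)) h5
    refine h3.trans ?_
    rw [← Finset.mul_sum, ← Chebyshev.theta_eq_sum_primesLE_log, ← Chebyshev.theta_eq_theta_coe_floor]
    exact mul_le_mul_of_nonneg_left (Chebyshev.theta_le_log4_mul_x (Real.exp_pos _).le)
      (hr0 0 (Nat.zero_le _))
  linarith

/-- The sum of `log p` over the primes used. -/
lemma sum_log_le (Y : ℝ) : ∑ p ∈ PS Y ε n, Real.log p ≤ Real.log 4 * (Real.exp Y * n) := by
  calc ∑ p ∈ PS Y ε n, Real.log p ≤ ∑ p ∈ Nat.primesLE ⌊Real.exp Y * n⌋₊, Real.log p := by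
        apply Finset.sum_le_sum_of_subset_of_nonneg (Finset.filter_subset _ _)
        intro p hp _
        rw [Nat.mem_primesLE] at hp
        exact Real.log_nonneg (by exact_mod_cast hp.2.one_lt.le)
    _ = θ (Real.exp Y * n) := by
        rw [← Chebyshev.theta_eq_sum_primesLE_log, ← Chebyshev.theta_eq_theta_coe_floor]
    _ ≤ _ := Chebyshev.theta_le_log4_mul_x (by positivity)

lemma card_le (Y : ℝ) (hn : 1 < n) (hε : ε < 1) :
    ((PS Y ε n).card : ℝ) ≤ Real.log 4 * Real.exp Y / (1 - ε) * (n / Real.log n) := by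
  have hnr : (1 : ℝ) < n := by exact_mod_cast hn
  have hl : 0 < Real.log n := Real.log_pos hnr
  have h1 : ((PS Y ε n).card : ℝ) * ((1 - ε) * Real.log n) ≤ Real.log 4 * (Real.exp Y * n) := by
    refine le_trans ?_ (sum_log_le (ε := ε) (n := n) Y)
    rw [← nsmul_eq_mul, ← Finset.sum_const]
    exact Finset.sum_le_sum fun p hp => (mem_PS hp).2.2.le
  have h2 : 0 < (1 - ε) * Real.log n := mul_pos (by linarith) hl
  rw [← le_div_iff₀ h2] at h1
  refine h1.trans (le_of_eq ?_)
  have : 1 - ε ≠ 0 := by linarith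
  field_simp

end Pool.Agent.helper81.OM
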