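import Mathlib
import Pool.Agent.helper81.OM.Index

/-!
# The triple at scale `n`
-/

set_option autoImplicit false
set_option maxHeartbeats 4000000

namespace Pool.Agent.helper81.OM

open Finset Real Chebyshev

/-- The cost of a pair of states (exponents) `j`, `l`. -/
noncomputable def cst (N : ℕ) (y h : ℝ) (j l : Fin N) : ℝ :=
  if j = l then 0 else y + h * (|((j : ℕ) : ℝ) - ((l : ℕ) : ℝ)| - 1)

lemma klog {k b A g : ℝ} (hk : 0 < k) (hb : 0 ≤ b) (hA : 0 < A) (h1 : A * k - b ≤ g)
    (h2 : 2 / 3 * (A * k) ≤ g) : k * Real.log (A * k) - 2 * b / A ≤ k * Real.log g := by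
  have hAk : 0 < A * k := by positivity
  set t := b / (A * k) with ht
  have ht0 : 0 ≤ t := by positivity
  have key : Real.log (A * k) - 2 * t ≤ Real.log g := by
    rcases le_or_gt t (1 / 3) with h | h
    · have h3 : A * k * (1 - t) ≤ g := by
        have : A * k * (1 - t) = A * k - b := by rw [ht]; field_simp
        rw [this]; exact h1
      have h4 := Real.log_le_log (by nlinarith) h3
      rw [Real.log_mul hAk.ne' (by linarith)] at h4
      have h5 := Real.one_sub_inv_le_log_of_pos (x := 1 - t) (by linarith)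
      have h6 : (1 - t)⁻¹ ≤ 1 + 2 * t := by
        rw [inv_le_comm₀ (by linarith) (by linarith), inv_eq_one_div, div_le_iff₀ (by linarith)]
        nlinarith
      linarith
    · have h4 := Real.log_le_log (by positivity) h2
      rw [Real.log_mul (by norm_num) hAk.ne'] at h4
      have h5 := Real.one_sub_inv_le_log_of_pos (x := (2 : ℝ) / 3) (by norm_num)
      norm_num at h5
      linarith
  have h7 : k * (2 * t) = 2 * b / A := by rw [ht]; field_simp
  have h8 := mul_le_mul_of_nonneg_left key hk.le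
  linarith

lemma ktan {k k0 A : ℝ} (hk : 0 < k) (hk0 : 0 < k0) (hA : 0 < A) :
    k * Real.log (A * k0) + k - k0 ≤ k * Real.log (A * k) := by
  have h1 := Real.one_sub_inv_le_log_of_pos (x := k / k0) (by positivity)
  rw [Real.log_div hk.ne' hk0.ne'] at h1
  rw [Real.log_mul hA.ne' hk0.ne', Real.log_mul hA.ne' hk.ne']
  have h2 := mul_le_mul_of_nonneg_left h1 hk.le
  have h3 : k * (1 - (k / k0)⁻¹) = k - k0 := by field_simp
  linarith

lemma div_log_mono {s t : ℝ} (hs : Real.exp 1 ≤ s) (hst : s ≤ t) :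
    s / Real.log s ≤ t / Real.log t := by
  have he : (1 : ℝ) < Real.exp 1 := by
    have := Real.add_one_lt_exp (x := 1) (by norm_num); linarith
  have h1 : 1 ≤ Real.log s := by
    rw [← Real.log_exp 1]; exact Real.log_le_log (Real.exp_pos 1) hs
  have h2 : Real.log s ≤ Real.log t := Real.log_le_log (by linarith) hst
  rw [div_le_div_iff₀ (by linarith) (by linarith)]
  have h3 : Real.log t - Real.log s ≤ t / s - 1 := by
    rw [← Real.log_div (by linarith) (by linarith)]
    exact Real.log_le_sub_one_of_pos (div_pos (by linarith) (by linarith))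
  have h4 : s * (Real.log t - Real.log s) ≤ t - s := by
    calc s * (Real.log t - Real.log s) ≤ s * (t / s - 1) := by
          apply mul_le_mul_of_nonneg_left h3; linarith
      _ = t - s := by
          have : s ≠ 0 := by linarith
          field_simp
  nlinarith

/-- The last comparison: `C log H / log log H` against the gain. -/
lemma last_step {C C1 X s1 Hv A gain : ℝ} (hA : 0 < A) (hHv : 0 < Hv) (hC : C ≤ C1) (hC1 : 0 ≤ C1)
    (hX : 1 < X) (hs1X : X ≤ s1) (hAs1 : Real.log A ≤ s1)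
    (hgain : Real.log Hv + gain ≤ Real.log A) (hgain0 : 0 ≤ gain)
    (hlt : C1 * (s1 / Real.log X) < gain)
    (hbig : Real.exp 1 + C * Real.exp 1 < Real.log A) :
    max Hv (Real.exp (Real.exp 1)) *
      Real.exp (C * Real.log (max Hv (Real.exp (Real.exp 1))) /
        Real.log (Real.log (max Hv (Real.exp (Real.exp 1))))) < A := by
  rcases le_total Hv (Real.exp (Real.exp 1)) with hcase | hcase
  · rw [max_eq_right hcase, Real.log_exp, Real.log_exp, div_one, ← Real.exp_add,
      ← Real.lt_log_iff_exp_lt hA]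
    exact hbig
  · rw [max_eq_left hcase]
    have he : (1 : ℝ) < Real.exp 1 := by
      have := Real.add_one_lt_exp (x := 1) (by norm_num); linarith
    have hs : Real.exp 1 ≤ Real.log Hv := by
      rw [Real.le_log_iff_exp_le hHv]; exact hcase
    have hHs1 : Real.log Hv ≤ s1 := by linarith
    have h1 := div_log_mono hs hHs1
    have h2 : s1 / Real.log s1 ≤ s1 / Real.log X := by
      apply div_le_div_of_nonneg_left (by linarith) (Real.log_pos hX)
      exact Real.log_le_log (by linarith) hs1X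
    have h3 : 0 ≤ Real.log Hv / Real.log (Real.log Hv) :=
      div_nonneg (by linarith) (Real.log_nonneg (by linarith))
    have h4 : C * Real.log Hv / Real.log (Real.log Hv) ≤ C1 * (s1 / Real.log X) := by
      calc C * Real.log Hv / Real.log (Real.log Hv) = C * (Real.log Hv / Real.log (Real.log Hv)) := by ring
        _ ≤ C1 * (Real.log Hv / Real.log (Real.log Hv)) := mul_le_mul_of_nonneg_right hC h3
        _ ≤ C1 * (s1 / Real.log X) := mul_le_mul_of_nonneg_left (h1.trans h2) hC1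
    rw [← Real.exp_log hHv, ← Real.exp_add, Real.exp_log hHv, ← Real.lt_log_iff_exp_lt hA]
    linarith

/-- The data: thresholds `y`, values `r`, weights `lam` of the `N` states. -/
structure Data (N B : ℕ) (y r : ℕ → ℝ) (lam : ℕ → Fin N → ℝ) (h lm : ℝ) : Prop where
  hN : 1 ≤ N
  hh : 0 < h
  hy : ∀ i < B, y i ≤ y (i + 1)
  hyB : 0 ≤ y B
  hr : ∀ i ≤ B, r (i + 1) ≤ r i
  hrB : r (B + 1) = 0
  hlam : ∀ i ≤ B, ∀ j, 0 ≤ lam i j
  hlm : ∀ i ≤ B, ∀ j, lam i j ≤ lm
  hlm0 : 0 ≤ lm
  hcert : ∀ i ≤ B, Cert (cst N (y i) h) (lam i)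
  hexp : ∀ i ≤ B, Real.exp (r i) ≤ ∑ j, Real.exp (-lam i j)

/-- The triple at scale `n`. -/
theorem step {N B : ℕ} {y r : ℕ → ℝ} {lam : ℕ → Fin N → ℝ} {h lm : ℝ}
    (hd : Data N B y r lam h lm) {n m : ℕ} {ε C C1 δ ρ : ℝ} (hn : 1 < n) (hm : 2 ≤ m)
    (hε0 : 0 ≤ ε) (hε1 : ε < 1) (hδ : 0 ≤ δ)
    (hn3 : Real.log 2 ≤ (1 - ε) * Real.log n)
    (hρ : ρ ≤ ∑ p ∈ PS (y B) ε n, r (idx y n p))
    (hbig : (m : ℝ) ^ 2 * (lm * (Real.log 4 * Real.exp (y B) / (1 - ε) * (n / Real.log n)) + 1) ≤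
      Real.exp ρ)
    (hE : δ * (n / Real.log n) ≤ ρ -
      (lm * (Real.log 4 * Real.exp (y B) / (1 - ε) * (n / Real.log n)) + m) / (m - 1) -
      Real.log (lm * (Real.log 4 * Real.exp (y B) / (1 - ε) * (n / Real.log n)) + 1) -
      Real.log (m * (N * (Real.log 4 * (Real.exp (y B) * n)) + 1)) +
      Real.log 4 * Real.exp (y B) / (1 - ε) * (n / Real.log n) * Real.log (1 - ε) -
      2 / 3 * Real.exp (h - 1) * (n / Real.log n) -
      2 * (Real.log 4 * Real.exp (y B) / (1 - ε) * (n / Real.log n) * Real.log N) /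
        (3 / 2 * (1 - ε) * Real.log n))
    (hC : C ≤ C1) (hC1 : 0 ≤ C1) (hκ : 1 < (n : ℝ) / Real.log n)
    (hCh : C1 * ((Real.log n + y B) / (2 * Real.log (n / Real.log n))) ≤ h)
    (hCδ : C1 / Real.log (n / Real.log n) < δ)
    (hbig2 : Real.exp 1 + C * Real.exp 1 < δ * (n / Real.log n)) :
    ∃ a b c : ℕ, 0 < a ∧ 0 < b ∧ a + b = c ∧ Nat.gcd (Nat.gcd a b) c = 1 ∧
      δ * (n / Real.log n) ≤ Real.log c ∧
      max (H (a * b * c)) (Real.exp (Real.exp 1)) *
        Real.exp (C * Real.log (max (H (a * b * c)) (Real.exp (Real.exp 1))) /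
          Real.log (Real.log (max (H (a * b * c)) (Real.exp (Real.exp 1))))) < c := by
  have hnr : (1 : ℝ) < n := by exact_mod_cast hn
  set ℓ := Real.log n with hℓ
  have hl : 0 < ℓ := Real.log_pos hnr
  set κ : ℝ := n / ℓ with hκdef
  have hκ0 : 0 < κ := by linarith
  set Y := y B with hY
  set P := PS Y ε n with hP
  set c1 := Real.log 4 * Real.exp Y / (1 - ε) with hc1
  have hε2 : 0 < 1 - ε := by linarith
  have hlog4 : 0 < Real.log 4 := Real.log_pos (by norm_num)
  have hc1pos : 0 < c1 := by rw [hc1]; positivity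
  have hPcard : (P.card : ℝ) ≤ c1 * κ := card_le Y hn hε1
  have hPmem : ∀ p ∈ P, p.Prime ∧ (p : ℝ) ≤ Real.exp Y * n ∧ (1 - ε) * ℓ < Real.log p :=
    fun p hp => mem_PS hp
  have hidx : ∀ p ∈ P, idx y n p ≤ B ∧ (p : ℝ) ≤ Real.exp (y (idx y n p)) * n := by
    intro p hp
    have := idx_spec (y := y) (B := B) (hPmem p hp).2.1
    exact ⟨this.1, this.2.1⟩
  have hlogp : ∀ p ∈ P, Real.log p ≤ ℓ + y (idx y n p) := by
    intro p hp
    have h1 := Real.log_le_log (by exact_mod_cast (hPmem p hp).1.pos) (hidx p hp).2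
    rw [Real.log_mul (Real.exp_pos _).ne' (by positivity), Real.log_exp] at h1
    linarith
  have hlogp0 : ∀ p ∈ P, 0 ≤ Real.log p := fun p hp =>
    Real.log_nonneg (by exact_mod_cast (hPmem p hp).1.one_lt.le)
  have hyidx : ∀ p ∈ P, y (idx y n p) ≤ Y := fun p hp => y_mono hd.hy (hidx p hp).1 le_rfl
  -- sums over `P` as sums over the subtype
  have hsumP : ∀ f : ℕ → ℝ, ∑ p : P, f p = ∑ p ∈ P, f p := fun f => Finset.sum_coe_sort P f
  set Λ := lm * (c1 * κ) with hΛ
  set T := (N : ℝ) * (Real.log 4 * (Real.exp Y * n)) with hT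
  obtain ⟨Q, x, x', hxx', hQ0, hclose, hQ1, hQ2, hQ3⟩ := exists_pair
    (ι := P) (σ := Fin N) (fun p => cst N (y (idx y n p)) h) (fun p => lam (idx y n p))
    (fun p => hd.hcert _ (hidx p p.2).1) (fun p j => by simp [cst]) (fun p => r (idx y n p))
    (fun p => hd.hexp _ (hidx p p.2).1) (fun p j => hd.hlam _ (hidx p p.2).1 j) Λ
    (fun x => by
      calc ∑ p : P, lam (idx y n p) (x p) ≤ ∑ p : P, lm :=
            Finset.sum_le_sum fun p _ => hd.hlm _ (hidx p p.2).1 _
        _ = P.card * lm := by rw [Finset.sum_const, nsmul_eq_mul]; simp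
        _ ≤ c1 * κ * lm := mul_le_mul_of_nonneg_right hPcard hd.hlm0
        _ = Λ := by rw [hΛ]; ring)
    (wt P) T
    (fun x => Finset.sum_nonneg fun p _ => mul_nonneg (by positivity) (hlogp0 p p.2))
    (fun x => by
      calc wt P x ≤ ∑ p : P, (N : ℝ) * Real.log (p : ℕ) := by
            refine Finset.sum_le_sum fun p _ => mul_le_mul_of_nonneg_right ?_ (hlogp0 p p.2)
            exact_mod_cast (x p).2.le
        _ = N * ∑ p ∈ P, Real.log p := by
            rw [← Finset.mul_sum, hsumP fun p => Real.log p]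
        _ ≤ T := by
            rw [hT]
            exact mul_le_mul_of_nonneg_left (sum_log_le (ε := ε) Y) (by positivity))
    m hm
    (by
      refine hbig.trans (Real.exp_le_exp.2 (hρ.trans (le_of_eq ?_)))
      rw [hsumP fun p => r (idx y n p)])
  rw [hsumP fun p => r (idx y n p)] at hQ1 hQ3
  obtain ⟨A, C', hC0, hCA, hcop, hpf, hdiff, hsum⟩ := exists_coprime P (fun p hp => (hPmem p hp).1) x x' hxx'
  set F := (Finset.univ : Finset P).filter (fun p => x p ≠ x' p) with hF
  set D := (A * C').primeFactors with hD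
  have hsumD : ∀ f : ℕ → ℝ, ∑ p ∈ D, f p = ∑ p ∈ F, f p := by
    intro f
    rw [hpf, Finset.sum_map]
    rfl
  have hcardD : D.card = F.card := by rw [hpf, Finset.card_map]
  have hDP : ∀ p ∈ D, p ∈ P := by
    intro p hp
    rw [hpf, Finset.mem_map] at hp
    obtain ⟨q, -, rfl⟩ := hp
    exact q.2
  have h3 : ∀ p ∈ D, 3 ≤ p := by
    intro p hp
    have h1 := (hPmem p (hDP p hp)).2.2
    have h2 : Real.log 2 < Real.log p := lt_of_le_of_lt hn3 h1
    have h4 : (2 : ℝ) < p := (Real.log_lt_log_iff (by norm_num)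
      (by exact_mod_cast (hPmem p (hDP p hp)).1.pos)).1 h2
    exact_mod_cast h4
  obtain ⟨-, hHpos, hS1, hgS, hlogH⟩ := H_triple A C' hC0 hCA hcop h3 Q hQ0 (by rw [hdiff]; exact hclose)
  set S := ∑ p ∈ D, Real.log p with hS
  set k : ℝ := (D.card : ℝ) with hk
  set g := S + Real.log A - Real.log Q with hg
  have hA0 : 0 < A := by omega
  have hApos : (0 : ℝ) < A := by exact_mod_cast hA0
  have hCpos : (0 : ℝ) < C' := by exact_mod_cast hC0
  have hkpos : 0 < k := by
    have h1 : D.Nonempty := by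
      rw [hD, Nat.nonempty_primeFactors]
      nlinarith
    rw [hk]
    exact_mod_cast h1.card_pos
  have hkP : k ≤ c1 * κ := by
    refine le_trans ?_ hPcard
    rw [hk]
    exact_mod_cast Finset.card_le_card hDP
  -- the sums
  set J := ∑ p : P, |((x p : ℕ) : ℝ) - ((x' p : ℕ) : ℝ)| with hJ
  set Yd := ∑ p ∈ F, y (idx y n p) with hYd
  have hJF : J = ∑ p ∈ F, |((x p : ℕ) : ℝ) - ((x' p : ℕ) : ℝ)| := by
    rw [hJ, hF, Finset.sum_filter]
    refine Finset.sum_congr rfl fun p _ => ?_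
    split_ifs with hp
    · rfl
    · push Not at hp
      rw [hp]; simp
  have hJ0 : 0 ≤ J := Finset.sum_nonneg fun p _ => abs_nonneg _
  have hone : ∀ p ∈ F, (1 : ℝ) ≤ |((x p : ℕ) : ℝ) - ((x' p : ℕ) : ℝ)| := by
    intro p hp
    rw [hF, Finset.mem_filter] at hp
    have h1 : (x p : ℕ) ≠ (x' p : ℕ) := fun h => hp.2 (Fin.ext h)
    have h2 : (((x p : ℕ) : ℤ) - ((x' p : ℕ) : ℤ)) ≠ 0 := by omega
    have h4 := Int.one_le_abs h2
    exact_mod_cast h4
  have hcost : ∑ p : P, cst N (y (idx y n p)) h (x p) (x' p) = Yd + h * J - h * k := by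
    have h1 : ∑ p : P, cst N (y (idx y n p)) h (x p) (x' p) =
        ∑ p ∈ F, (y (idx y n p) + h * (|((x p : ℕ) : ℝ) - ((x' p : ℕ) : ℝ)| - 1)) := by
      rw [hF, Finset.sum_filter]
      refine Finset.sum_congr rfl fun p _ => ?_
      by_cases hxp : x p = x' p
      · simp [cst, hxp]
      · simp [cst, hxp]
    rw [h1, Finset.sum_add_distrib, ← Finset.mul_sum, Finset.sum_sub_distrib, ← hJF,
      Finset.sum_const, nsmul_eq_mul, mul_one, ← hcardD]
    ring
  have hS_ge : (1 - ε) * ℓ * k ≤ S := by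
    rw [hk, mul_comm, ← nsmul_eq_mul, ← Finset.sum_const]
    exact Finset.sum_le_sum fun p hp => (hPmem p (hDP p hp)).2.2.le
  have hS_le : S ≤ k * ℓ + Yd := by
    have h1 : S ≤ ∑ p ∈ D, (ℓ + y (idx y n p)) := Finset.sum_le_sum fun p hp => hlogp p (hDP p hp)
    rw [Finset.sum_add_distrib, Finset.sum_const, nsmul_eq_mul, hsumD fun p => y (idx y n p)] at h1
    exact h1
  have hT_le : Real.log A + Real.log C' ≤ (ℓ + Y) * J := by
    rw [hsum, hJ, Finset.mul_sum]
    refine Finset.sum_le_sum fun p _ => ?_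
    have h1 : Real.log (p : ℕ) ≤ ℓ + Y := (hlogp p p.2).trans (by linarith [hyidx p p.2])
    have h2 := abs_nonneg (((x p : ℕ) : ℝ) - ((x' p : ℕ) : ℝ))
    calc _ ≤ |((x p : ℕ) : ℝ) - ((x' p : ℕ) : ℝ)| * (ℓ + Y) := mul_le_mul_of_nonneg_left h1 h2
      _ = _ := by ring
  have hT_ge : S ≤ Real.log A + Real.log C' := by
    rw [hsum, hS, hsumD fun p => Real.log p]
    calc ∑ p ∈ F, Real.log (p : ℕ) ≤ ∑ p ∈ F, |((x p : ℕ) : ℝ) - ((x' p : ℕ) : ℝ)| * Real.log (p : ℕ) := by
          refine Finset.sum_le_sum fun p hp => ?_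
          have h1 := hone p hp
          have h2 := hlogp0 p p.2
          nlinarith
      _ ≤ ∑ p : P, |((x p : ℕ) : ℝ) - ((x' p : ℕ) : ℝ)| * Real.log (p : ℕ) := by
          apply Finset.sum_le_sum_of_subset_of_nonneg (Finset.filter_subset _ _)
          intro p _ _
          exact mul_nonneg (abs_nonneg _) (hlogp0 p p.2)
  have hAC : Real.log C' ≤ Real.log A := Real.log_le_log hCpos (by exact_mod_cast hCA.le)
  have hAhalf : S / 2 ≤ Real.log A := by linarith
  -- logarithm of `Q`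
  have hm1 : (0 : ℝ) < (m : ℝ) - 1 := by
    have : (2 : ℝ) ≤ m := by exact_mod_cast hm
    linarith
  have hΛ0 : 0 ≤ Λ := by rw [hΛ]; have := hd.hlm0; positivity
  have hNr : (1 : ℝ) ≤ N := by exact_mod_cast hd.hN
  have hlogN : 0 ≤ Real.log N := Real.log_nonneg hNr
  have hlogε : Real.log (1 - ε) ≤ 0 := Real.log_nonpos hε2.le (by linarith)
  have hterm1 : 0 ≤ (Λ + m) / (m - 1) := by positivity
  have hterm2 : c1 * κ * Real.log (1 - ε) ≤ 0 := mul_nonpos_of_nonneg_of_nonpos (by positivity) hlogε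
  have hterm3 : 0 ≤ 2 / 3 * Real.exp (h - 1) * κ := by positivity
  have hterm4 : 0 ≤ 2 * (c1 * κ * Real.log N) / (3 / 2 * (1 - ε) * ℓ) := by positivity
  have hlogQ : δ * κ ≤ Real.log Q := by linarith
  have hlogQ0 : 0 ≤ Real.log Q := le_trans (by positivity) hlogQ
  have hlogQle : Real.log Q ≤ c1 * κ * Real.log N := by
    refine hQ2.trans ?_
    rw [Fintype.card_coe, Fintype.card_fin]
    exact mul_le_mul_of_nonneg_right hPcard hlogN
  have hlogAQ : Real.log Q ≤ Real.log A := by rw [hg] at hgS; linarith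
  -- the gain
  set A' := 3 / 2 * (1 - ε) * ℓ with hA'
  have hA'pos : 0 < A' := by rw [hA']; positivity
  set k0 := 2 / 3 * Real.exp (h - 1) * κ with hk0
  have hk0pos : 0 < k0 := by rw [hk0]; positivity
  have g1 : k * Real.log (A' * k) - 2 * Real.log Q / A' ≤ k * Real.log g := by
    apply klog hkpos hlogQ0 hA'pos
    · have h1 : A' * k = 3 / 2 * ((1 - ε) * ℓ * k) := by rw [hA']; ring
      rw [h1, hg]; linarith
    · have h1 : 2 / 3 * (A' * k) = (1 - ε) * ℓ * k := by rw [hA']; ring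
      rw [h1]; linarith
  have g2 := ktan (A := A') hkpos hk0pos hA'pos
  have g3 : Real.log (A' * k0) = Real.log (1 - ε) + (h - 1) + ℓ := by
    have h1 : A' * k0 = (1 - ε) * Real.exp (h - 1) * n := by
      rw [hA', hk0, hκdef]; field_simp
    rw [h1, Real.log_mul (by positivity) (by positivity), Real.log_mul hε2.ne' (Real.exp_pos _).ne',
      Real.log_exp]
  rw [g3] at g2
  have g4 : 2 * Real.log Q / A' ≤ 2 * (c1 * κ * Real.log N) / A' := by
    apply div_le_div_of_nonneg_right _ hA'pos.le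
    linarith
  have g5 : c1 * κ * Real.log (1 - ε) ≤ k * Real.log (1 - ε) :=
    mul_le_mul_of_nonpos_right hkP hlogε
  rw [hcost] at hQ3
  have g6 : k * (Real.log (1 - ε) + (h - 1) + ℓ) = k * Real.log (1 - ε) + k * h - k + k * ℓ := by ring
  have gain : Real.log (H (C' * (A - C') * A)) + (δ * κ + h * J) ≤ Real.log A := by
    linarith
  -- the size of `A`
  have hQ1' : 1 ≤ Q := by
    by_contra hcon
    push Not at hcon
    have := Real.log_neg hQ0 hcon
    linarith
  have hAle : Real.log A ≤ (ℓ + Y) * J / 2 + κ := by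
    have h1 : (1 : ℝ) / Q ≤ 1 := by rw [div_le_one hQ0]; exact hQ1'
    rw [← hdiff] at hclose
    linarith
  have hJ' : 0 ≤ (ℓ + Y) * J / 2 := by
    have := hd.hyB
    positivity
  have hlogκ : 0 < Real.log κ := Real.log_pos hκ
  refine ⟨C', A - C', A, hC0, by omega, by omega, ?_, by linarith, ?_⟩
  · have h1 : Nat.gcd C' (A - C') = 1 := by
      have := (Nat.coprime_sub_self_right hCA.le).2 hcop.symm
      exact this
    rw [h1]; simp
  · refine last_step (X := κ) (s1 := (ℓ + Y) * J / 2 + κ) hApos hHpos hC hC1 hκ (by linarith) hAle gain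
      (by have := hd.hh; positivity) ?_ (by linarith)
    have e1 : C1 * (((ℓ + Y) * J / 2 + κ) / Real.log κ) =
        C1 * ((ℓ + Y) / (2 * Real.log κ)) * J + C1 / Real.log κ * κ := by
      field_simp
    rw [e1]
    have e2 : C1 * ((ℓ + Y) / (2 * Real.log κ)) * J ≤ h * J := mul_le_mul_of_nonneg_right hCh hJ0
    have e3 : C1 / Real.log κ * κ < δ * κ := mul_lt_mul_of_pos_right hCδ hκ0
    linarith

end Pool.Agent.helper81.OM
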