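import Mathlib
import Pool.Agent.helper81.OM.Step
import Pool.Agent.helper81.OM.Sel

/-!
# From the data to infinitely many triples
-/

set_option autoImplicit false
set_option maxHeartbeats 4000000

namespace Pool.Agent.helper81.OM

open Finset Real Chebyshev Filter Topology

lemma tendsto_t_div_exp : Tendsto (fun t : ℝ => t / Real.exp t) atTop (𝓝 0) := by
  have := Real.tendsto_pow_mul_exp_neg_atTop_nhds_zero 1
  refine this.congr fun t => ?_
  rw [pow_one, Real.exp_neg]; ring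

lemma tendsto_t2_div_exp : Tendsto (fun t : ℝ => t * (t / Real.exp t)) atTop (𝓝 0) := by
  have := Real.tendsto_pow_mul_exp_neg_atTop_nhds_zero 2
  refine this.congr fun t => ?_
  rw [Real.exp_neg]; ring

lemma tendsto_exp_div : Tendsto (fun t : ℝ => Real.exp t / t) atTop atTop := by
  have := Real.tendsto_exp_div_pow_atTop 1
  simpa using this

lemma tendsto_log_div : Tendsto (fun t : ℝ => Real.log t / t) atTop (𝓝 0) := by
  have := (Real.isLittleO_log_id_atTop).tendsto_div_nhds_zero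
  simpa using this

lemma ratio_tendsto (Y : ℝ) :
    Tendsto (fun t : ℝ => (t + Y) / (2 * Real.log (Real.exp t / t))) atTop (𝓝 (1 / 2)) := by
  have h1 : Tendsto (fun t : ℝ => (1 + Y / t) / (2 * (1 - Real.log t / t))) atTop
      (𝓝 ((1 + 0) / (2 * (1 - 0)))) := by
    apply Tendsto.div
    · exact tendsto_const_nhds.add (tendsto_const_nhds.div_atTop tendsto_id)
    · exact (tendsto_const_nhds.sub tendsto_log_div).const_mul 2
    · norm_num
  rw [show ((1 : ℝ) + 0) / (2 * (1 - 0)) = 1 / 2 by norm_num] at h1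
  refine h1.congr' ?_
  filter_upwards [eventually_gt_atTop 0] with t ht
  rw [Real.log_div (Real.exp_pos t).ne' ht.ne', Real.log_exp]
  have e1 : 1 + Y / t = (t + Y) / t := by field_simp
  have e2 : 2 * (1 - Real.log t / t) = (2 * (t - Real.log t)) / t := by field_simp
  rw [e1, e2, div_div_div_cancel_right₀ ht.ne']

lemma logk_tendsto : Tendsto (fun t : ℝ => Real.log (Real.exp t / t)) atTop atTop :=
  Real.tendsto_log_atTop.comp tendsto_exp_div

theorem core {N B : ℕ} {y r : ℕ → ℝ} {lam : ℕ → Fin N → ℝ} {h lm : ℝ}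
    (hd : Data N B y r lam h lm) (C : ℝ) (hC : C < 2 * h)
    (hG : 2 / 3 * Real.exp (h - 1) < ∑ i ∈ Finset.range (B + 1), (r i - r (i + 1)) * Real.exp (y i))
    (X : ℝ) :
    ∃ a b c : ℕ, 0 < a ∧ 0 < b ∧ a + b = c ∧ Nat.gcd (Nat.gcd a b) c = 1 ∧ X < c ∧
      max (H (a * b * c)) (Real.exp (Real.exp 1)) *
        Real.exp (C * Real.log (max (H (a * b * c)) (Real.exp (Real.exp 1))) /
          Real.log (Real.log (max (H (a * b * c)) (Real.exp (Real.exp 1))))) < c := by
  set G := ∑ i ∈ Finset.range (B + 1), (r i - r (i + 1)) * Real.exp (y i) with hGdef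
  set W0 := 2 / 3 * Real.exp (h - 1) with hW0
  set Y := y B with hY
  have hY0 : 0 ≤ Y := hd.hyB
  set η := G - W0 with hη
  have hη0 : 0 < η := by linarith
  have hhpos := hd.hh
  set C1 := max C 0 with hC1
  have hC1h : C1 / 2 < h := by
    have : C1 < 2 * h := max_lt hC (by linarith)
    linarith
  have hC10 : 0 ≤ C1 := le_max_right _ _
  set δ := η / 8 with hδ
  have hδ0 : 0 < δ := by positivity
  have hlog4 : 0 < Real.log 4 := Real.log_pos (by norm_num)
  -- choice of `ε`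
  have hfε : Tendsto (fun ε : ℝ => (1 - ε) * G + Real.log 4 * Real.exp Y / (1 - ε) * Real.log (1 - ε) - W0)
      (𝓝[>] 0) (𝓝 η) := by
    have h1 : ContinuousAt (fun ε : ℝ => (1 - ε) * G + Real.log 4 * Real.exp Y / (1 - ε) * Real.log (1 - ε) - W0) 0 := by
      have h2 : ContinuousAt (fun ε : ℝ => 1 - ε) 0 := by fun_prop
      have h3 : ContinuousAt (fun ε : ℝ => Real.log (1 - ε)) 0 := h2.log (by norm_num)
      have h4 : ContinuousAt (fun ε : ℝ => Real.log 4 * Real.exp Y / (1 - ε)) 0 :=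
        continuousAt_const.div h2 (by norm_num)
      exact ((h2.mul continuousAt_const).add (h4.mul h3)).sub continuousAt_const
    have h5 := h1.tendsto
    simp only [sub_zero, one_mul, Real.log_one, mul_zero, add_zero] at h5
    exact h5.mono_left nhdsWithin_le_nhds
  obtain ⟨ε, hε1, hε2, hε3⟩ := ((hfε.eventually (lt_mem_nhds (by linarith : η / 2 < η))).and
    ((eventually_nhdsWithin_of_forall (fun x hx => hx : ∀ x ∈ Set.Ioi (0:ℝ), x ∈ Set.Ioi 0)).and
      (mem_nhdsWithin_of_mem_nhds (Iio_mem_nhds (by norm_num : (0:ℝ) < 1 / 2))))).exists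
  simp only [Set.mem_Ioi] at hε2
  have hε3' : ε < 1 / 2 := hε3
  have hε4 : 0 < 1 - ε := by linarith
  set c1 := Real.log 4 * Real.exp Y / (1 - ε) with hc1
  have hc1pos : 0 < c1 := by rw [hc1]; positivity
  -- choice of `m`
  obtain ⟨m', hm'⟩ := exists_nat_gt (lm * c1 * 8 / η)
  set m := m' + 2 with hm
  have hmr : lm * c1 / ((m : ℝ) - 1) < η / 8 := by
    have h1 : ((m : ℝ) - 1) = m' + 1 := by rw [hm]; push_cast; ring
    rw [h1, div_lt_iff₀ (by positivity)]
    rw [div_lt_iff₀ hη0] at hm'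
    nlinarith
  have hm2 : 2 ≤ m := by omega
  have hm1 : (0 : ℝ) < (m : ℝ) - 1 := by
    have : (2 : ℝ) ≤ m := by exact_mod_cast hm2
    linarith
  have hm0 : (0 : ℝ) < m := by linarith
  have hNr : (1 : ℝ) ≤ N := by exact_mod_cast hd.hN
  have hlogN : 0 ≤ Real.log N := Real.log_nonneg hNr
  set K1 := Real.log (lm * c1 + 1) with hK1
  set K2 := Real.log (m * (N * (Real.log 4 * Real.exp Y) + 1)) with hK2
  set K3 := 2 * (c1 * Real.log N) / (3 / 2 * (1 - ε)) with hK3
  -- the main limit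
  have hF : Tendsto (fun t : ℝ => 1 / (1 + Y / t) * ((1 - ε) * G - r 0 * Real.log 4 * Real.exp (-(ε * t))) -
      (lm * c1 + m * (t / Real.exp t)) / (m - 1) - ((K1 + K2) * (t / Real.exp t) + 2 * (t * (t / Real.exp t))) +
      c1 * Real.log (1 - ε) - W0 - K3 / t) atTop
      (𝓝 (1 / (1 + 0) * ((1 - ε) * G - r 0 * Real.log 4 * 0) - (lm * c1 + m * 0) / (m - 1) -
        ((K1 + K2) * 0 + 2 * 0) + c1 * Real.log (1 - ε) - W0 - 0)) := by
    have a1 : Tendsto (fun t : ℝ => Y / t) atTop (𝓝 0) := tendsto_const_nhds.div_atTop tendsto_id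
    have a2 : Tendsto (fun t : ℝ => K3 / t) atTop (𝓝 0) := tendsto_const_nhds.div_atTop tendsto_id
    have a3 : Tendsto (fun t : ℝ => Real.exp (-(ε * t))) atTop (𝓝 0) := by
      apply Real.tendsto_exp_neg_atTop_nhds_zero.comp
      exact tendsto_id.const_mul_atTop hε2
    have b1 : Tendsto (fun t : ℝ => 1 / (1 + Y / t)) atTop (𝓝 (1 / (1 + 0))) :=
      tendsto_const_nhds.div (tendsto_const_nhds.add a1) (by norm_num)
    have b2 : Tendsto (fun t : ℝ => (1 - ε) * G - r 0 * Real.log 4 * Real.exp (-(ε * t))) atTop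
        (𝓝 ((1 - ε) * G - r 0 * Real.log 4 * 0)) := tendsto_const_nhds.sub (a3.const_mul _)
    have b3 : Tendsto (fun t : ℝ => (lm * c1 + m * (t / Real.exp t)) / (m - 1)) atTop
        (𝓝 ((lm * c1 + m * 0) / (m - 1))) :=
      (tendsto_const_nhds.add (tendsto_t_div_exp.const_mul _)).div_const _
    have b4 : Tendsto (fun t : ℝ => (K1 + K2) * (t / Real.exp t) + 2 * (t * (t / Real.exp t))) atTop
        (𝓝 ((K1 + K2) * 0 + 2 * 0)) :=
      (tendsto_t_div_exp.const_mul _).add (tendsto_t2_div_exp.const_mul _)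
    exact (((((b1.mul b2).sub b3).sub b4).add tendsto_const_nhds).sub tendsto_const_nhds).sub a2
  have hlim : δ < 1 / (1 + 0) * ((1 - ε) * G - r 0 * Real.log 4 * 0) - (lm * c1 + m * 0) / (m - 1) -
        ((K1 + K2) * 0 + 2 * 0) + c1 * Real.log (1 - ε) - W0 - 0 := by
    have e1 : 1 / (1 + 0) * ((1 - ε) * G - r 0 * Real.log 4 * 0) - (lm * c1 + m * 0) / (m - 1) -
        ((K1 + K2) * 0 + 2 * 0) + c1 * Real.log (1 - ε) - W0 - 0 =
        ((1 - ε) * G + c1 * Real.log (1 - ε) - W0) - lm * c1 / (m - 1) := by ring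
    rw [e1]; linarith
  have ev1 := hF.eventually (lt_mem_nhds hlim)
  have ev2 := tendsto_exp_div.eventually (eventually_gt_atTop (1 : ℝ))
  have ev3 : ∀ᶠ t : ℝ in atTop, C1 * ((t + Y) / (2 * Real.log (Real.exp t / t))) < h := by
    have h1 := (ratio_tendsto Y).const_mul C1
    rw [mul_one_div] at h1
    exact h1.eventually (gt_mem_nhds hC1h)
  have ev4 : ∀ᶠ t : ℝ in atTop, C1 / Real.log (Real.exp t / t) < δ := by
    have h1 : Tendsto (fun t : ℝ => C1 / Real.log (Real.exp t / t)) atTop (𝓝 0) :=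
      tendsto_const_nhds.div_atTop logk_tendsto
    exact h1.eventually (gt_mem_nhds hδ0)
  have ev5 := (tendsto_exp_div.const_mul_atTop hδ0).eventually
    (eventually_gt_atTop (max (Real.exp 1 + C * Real.exp 1) (Real.log (max X 1))))
  have ev6 : ∀ᶠ t : ℝ in atTop, Real.log 2 ≤ (1 - ε) * t :=
    (tendsto_id.const_mul_atTop hε4).eventually (eventually_ge_atTop (Real.log 2))
  have ev7 := Real.tendsto_exp_atTop.eventually (eventually_ge_atTop (m : ℝ))
  have ev := ev1.and (ev2.and (ev3.and (ev4.and (ev5.and (ev6.and (ev7.and (eventually_ge_atTop (1 : ℝ))))))))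
  have hlogt : Tendsto (fun n : ℕ => Real.log n) atTop atTop :=
    Real.tendsto_log_atTop.comp tendsto_natCast_atTop_atTop
  obtain ⟨N₀, hN₀⟩ := eventually_atTop.1 (hlogt.eventually ev)
  -- choice of the scale
  obtain ⟨n, hnN, hn1, hsel⟩ := exists_scale (B + 1) (fun i => r i - r (i + 1)) (fun i => Real.exp (y i))
    (fun i hi => by
      rw [Finset.mem_range] at hi
      have := hd.hr i (by omega)
      linarith) (fun i _ => Real.exp_pos _) ε hε2 (by
      rw [← hGdef]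
      have : 0 < W0 := by rw [hW0]; positivity
      linarith) N₀
  obtain ⟨q1, q2, q3, q4, q5, q6, q7, q8⟩ := hN₀ n hnN
  rw [← hGdef] at hsel
  have hnpos : (0 : ℝ) < n := by exact_mod_cast hn1
  set ℓ := Real.log n with hℓ
  have hl0 : 0 < ℓ := by linarith
  have hexpl : Real.exp ℓ = n := Real.exp_log hnpos
  have hn : 1 < n := by
    rcases Nat.lt_or_ge 1 n with h1 | h1
    · exact h1
    · exfalso
      have : n = 1 := by omega
      rw [hℓ, this] at q8
      simp at q8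
      linarith
  have hexpε : Real.exp ((1 - ε) * ℓ) = n * Real.exp (-(ε * ℓ)) := by
    rw [← hexpl, ← Real.exp_add]; congr 1; ring
  rw [hexpl] at q1 q2 q3 q4 q5 q7
  set κ : ℝ := n / ℓ with hκdef
  have hκ0 : 0 < κ := by linarith
  have hκn : κ ≤ n := div_le_self hnpos.le q8
  -- `ρ`
  set ρ := ((1 - ε) * n * G - r 0 * (Real.log 4 * Real.exp ((1 - ε) * ℓ))) / (ℓ + Y) with hρ
  have hρle : ρ ≤ ∑ p ∈ PS Y ε n, r (idx y n p) := by
    rw [hρ, div_le_iff₀ (by linarith), mul_comm]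
    have := sum_r_ge (ε := ε) hd.hy hd.hyB hd.hr hd.hrB hn
    linarith
  have hρκ : ρ = κ * (1 / (1 + Y / ℓ) * ((1 - ε) * G - r 0 * Real.log 4 * Real.exp (-(ε * ℓ)))) := by
    rw [hρ, hexpε, hκdef]
    have : ℓ + Y ≠ 0 := by linarith
    field_simp
  -- bounds of the logarithms
  have hlm0 := hd.hlm0
  have hL1 : Real.log (lm * (c1 * κ) + 1) ≤ K1 + ℓ := by
    have h1 : lm * (c1 * κ) + 1 ≤ (lm * c1 + 1) * n := by
      have h2 : (lm * c1) * κ ≤ (lm * c1) * n := mul_le_mul_of_nonneg_left hκn (by positivity)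
      have h3 : (1 : ℝ) ≤ n := by exact_mod_cast hn1
      nlinarith
    have h2 := Real.log_le_log (by positivity) h1
    rwa [Real.log_mul (by positivity) hnpos.ne'] at h2
  have hL2 : Real.log (m * (N * (Real.log 4 * (Real.exp Y * n)) + 1)) ≤ K2 + ℓ := by
    have h1 : m * (N * (Real.log 4 * (Real.exp Y * n)) + 1) ≤ (m * (N * (Real.log 4 * Real.exp Y) + 1)) * n := by
      have h3 : (1 : ℝ) ≤ n := by exact_mod_cast hn1
      nlinarith
    have h2 := Real.log_le_log (by positivity) h1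
    rwa [Real.log_mul (by positivity) hnpos.ne'] at h2
  have hK3' : 2 * (c1 * κ * Real.log N) / (3 / 2 * (1 - ε) * ℓ) = κ * (K3 / ℓ) := by
    rw [hK3]; field_simp
  have hn_eq : (n : ℝ) = κ * ℓ := by rw [hκdef]; field_simp
  have hE : δ * κ ≤ ρ - (lm * (c1 * κ) + m) / (m - 1) - Real.log (lm * (c1 * κ) + 1) -
      Real.log (m * (N * (Real.log 4 * (Real.exp Y * n)) + 1)) + c1 * κ * Real.log (1 - ε) -
      W0 * κ - 2 * (c1 * κ * Real.log N) / (3 / 2 * (1 - ε) * ℓ) := by
    rw [hK3', hρκ]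
    have e1 : (lm * (c1 * κ) + m) / ((m : ℝ) - 1) = κ * ((lm * c1 + m * (ℓ / n)) / (m - 1)) := by
      have : ℓ / (n : ℝ) = 1 / κ := by rw [hκdef]; field_simp
      rw [this]; field_simp
    have e2 : K1 + ℓ + (K2 + ℓ) = κ * ((K1 + K2) * (ℓ / n) + 2 * (ℓ * (ℓ / n))) := by
      have : ℓ / (n : ℝ) = 1 / κ := by rw [hκdef]; field_simp
      rw [this]; field_simp; ring
    rw [e1]
    have h5 := mul_le_mul_of_nonneg_left q1.le hκ0.le
    linarith
  have hT : (m : ℝ) ≤ N * (Real.log 4 * (Real.exp Y * n)) + 1 := by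
    have h1 : (1 : ℝ) ≤ Real.log 4 := by
      rw [Real.le_log_iff_exp_le (by norm_num)]
      have := Real.exp_one_lt_d9
      linarith
    have h2 : (1 : ℝ) ≤ Real.exp Y := Real.one_le_exp hY0
    have h3 : (n : ℝ) ≤ Real.exp Y * n := by nlinarith
    have h4 : Real.exp Y * n ≤ Real.log 4 * (Real.exp Y * n) := by nlinarith [mul_nonneg (Real.exp_pos Y).le hnpos.le]
    have h5 : Real.log 4 * (Real.exp Y * n) ≤ N * (Real.log 4 * (Real.exp Y * n)) := by
      have : 0 ≤ Real.log 4 * (Real.exp Y * n) := by positivity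
      nlinarith
    linarith
  have hbig : (m : ℝ) ^ 2 * (lm * (c1 * κ) + 1) ≤ Real.exp ρ := by
    have hlogε : Real.log (1 - ε) ≤ 0 := Real.log_nonpos hε4.le (by linarith)
    have t1 : 0 ≤ (lm * (c1 * κ) + m) / ((m : ℝ) - 1) := by positivity
    have t2 : c1 * κ * Real.log (1 - ε) ≤ 0 := mul_nonpos_of_nonneg_of_nonpos (by positivity) hlogε
    have t3 : 0 ≤ W0 * κ := by rw [hW0]; positivity
    have t4 : 0 ≤ 2 * (c1 * κ * Real.log N) / (3 / 2 * (1 - ε) * ℓ) := by positivity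
    have t5 : 0 ≤ δ * κ := by positivity
    have h1 : Real.log (lm * (c1 * κ) + 1) + Real.log (m * (N * (Real.log 4 * (Real.exp Y * n)) + 1)) ≤ ρ := by
      linarith
    rw [← Real.log_mul (by positivity) (by positivity)] at h1
    have h2 := (Real.log_le_iff_le_exp (by positivity)).1 h1
    refine le_trans ?_ h2
    have h3 : (m : ℝ) * m ≤ m * (N * (Real.log 4 * (Real.exp Y * n)) + 1) := mul_le_mul_of_nonneg_left hT hm0.le
    calc (m : ℝ) ^ 2 * (lm * (c1 * κ) + 1) = (lm * (c1 * κ) + 1) * (m * m) := by ring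
      _ ≤ _ := mul_le_mul_of_nonneg_left h3 (by positivity)
  obtain ⟨a, b, c, ha, hb, habc, hgcd, hc, hfin⟩ := step hd hn hm2 hε2.le (by linarith) hδ0.le
    (by rw [← hℓ]; exact q6) hρle hbig hE (le_max_left C 0) hC10 q2 q3.le q4
    (lt_of_le_of_lt (le_max_left _ _) q5)
  refine ⟨a, b, c, ha, hb, habc, hgcd, ?_, hfin⟩
  have hc0 : (0 : ℝ) < c := by
    have : 0 < c := by omega
    exact_mod_cast this
  have h1 : Real.log (max X 1) < Real.log c :=
    lt_of_lt_of_le (lt_of_le_of_lt (le_max_right _ _) q5) hc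
  have h2 : max X 1 < c := (Real.log_lt_log_iff (lt_of_lt_of_le one_pos (le_max_right _ _)) hc0).1 h1
  exact lt_of_le_of_lt (le_max_left _ _) h2

/-- Infinitely many triples. -/
theorem infinite_of_data {N B : ℕ} {y r : ℕ → ℝ} {lam : ℕ → Fin N → ℝ} {h lm : ℝ}
    (hd : Data N B y r lam h lm) (C : ℝ) (hC : C < 2 * h)
    (hG : 2 / 3 * Real.exp (h - 1) < ∑ i ∈ Finset.range (B + 1), (r i - r (i + 1)) * Real.exp (y i)) :
    {t : ℕ × ℕ × ℕ | 0 < t.1 ∧ 0 < t.2.1 ∧ t.1 + t.2.1 = t.2.2 ∧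
      Nat.gcd (Nat.gcd t.1 t.2.1) t.2.2 = 1 ∧
      max (H (t.1 * t.2.1 * t.2.2)) (Real.exp (Real.exp 1)) *
        Real.exp (C * Real.log (max (H (t.1 * t.2.1 * t.2.2)) (Real.exp (Real.exp 1))) /
          Real.log (Real.log (max (H (t.1 * t.2.1 * t.2.2)) (Real.exp (Real.exp 1))))) <
        (t.2.2 : ℝ)}.Infinite := by
  intro hfin
  obtain ⟨M, hM⟩ := (hfin.image (fun t : ℕ × ℕ × ℕ => t.2.2)).bddAbove
  obtain ⟨a, b, c, ha, hb, hab, hg, hBc, hH⟩ := core hd C hC hG M
  have : c ≤ M := hM ⟨(a, b, c), ⟨ha, hb, hab, hg, hH⟩, rfl⟩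
  have h2 : (c : ℝ) ≤ M := by exact_mod_cast this
  linarith

end Pool.Agent.helper81.OM
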