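import Mathlib
import Pool.Agent.helper81.OM.Dat

/-!
# The numerical checks
-/

set_option autoImplicit false
set_option maxHeartbeats 4000000

namespace Pool.Agent.helper81.OM

/-- repeated squaring in fixed point arithmetic -/
def sq20 (t : ℕ) : ℕ := (fun T : ℕ => T * T / 1000000000000000000)^[20] t

/-- A lower bound for `10 ^ 18 * exp (- m / 10 ^ 8)`. -/
def eneg (m : ℕ) : ℕ := sq20 (1000000000000000000 - (1000000000000000000 * m / (100000000 * 1048576) + 1))

/-- A lower bound for `10 ^ 18 * exp (m / 10 ^ 8)`. -/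
def epos (m : ℕ) : ℕ := sq20 (1000000000000000000 + 1000000000000000000 * m / (100000000 * 1048576))

/-- the digits -/
def dg (v k : ℕ) : ℤ := ((v / 1000000 ^ k % 1000000 : ℕ) : ℤ) - 200000

/-- the squared norm of the `j`-th point -/
def nrm (v j : ℕ) : ℤ := dg v (2 + 2 * j) * dg v (2 + 2 * j) + dg v (3 + 2 * j) * dg v (3 + 2 * j)

/-- the squared distance of the `j`-th and the `l`-th point -/
def dst (v j l : ℕ) : ℤ := (dg v (2 + 2 * j) - dg v (2 + 2 * l)) * (dg v (2 + 2 * j) - dg v (2 + 2 * l)) +
  (dg v (3 + 2 * j) - dg v (3 + 2 * l)) * (dg v (3 + 2 * j) - dg v (3 + 2 * l))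

/-- the points are far enough apart -/
def okpair (v j l : ℕ) : Bool :=
  decide (2 * (dg v 0 * 1000000 + 225010000 * ((l : ℤ) - j - 1)) ≤ dst v j l)

/-- the check of one row -/
def okrow (v : ℕ) : Bool :=
    okpair v 0 1 && okpair v 0 2 && okpair v 0 3 && okpair v 0 4 &&
    okpair v 1 2 && okpair v 1 3 && okpair v 1 4 &&
    okpair v 2 3 && okpair v 2 4 && okpair v 3 4 &&
    decide (1000000000000000000 * 1000000000000000000 ≤ eneg ((dg v 1).toNat * 1000) *
      (eneg (nrm v 0).toNat + eneg (nrm v 1).toNat + eneg (nrm v 2).toNat + eneg (nrm v 3).toNat +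
        eneg (nrm v 4).toNat))

/-- the check of all rows -/
def okall : List ℕ → Bool
  | [] => true
  | a :: l => okrow a && okall l

theorem okall_dat : okall dat = true := by decide +kernel

/-- thresholds increase, values decrease -/
def okchain : List ℕ → Bool
  | [] => true
  | [a] => decide (0 ≤ dg a 1)
  | a :: b :: l => decide (dg a 0 ≤ dg b 0) && decide (dg b 1 ≤ dg a 1) && okchain (b :: l)

theorem okchain_dat : okchain dat = true := by decide +kernel

/-- the sum of `(r i - r (i + 1)) * exp (y i - 7)` -/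
def gsum : List ℕ → ℕ
  | [] => 0
  | [a] => (dg a 1).toNat * eneg (700000000 - dg a 0 * 1000000).toNat
  | a :: b :: l => (dg a 1 - dg b 1).toNat * eneg (700000000 - dg a 0 * 1000000).toNat + gsum (b :: l)

theorem gsum_dat : 2 * 100000 * 1000000000000000000 * 1000000000000000000 <
    3 * epos (800000000 - 225010000) * gsum dat := by decide +kernel

end Pool.Agent.helper81.OM
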