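import Mathlib
import Pool.Agent.helper81.OM.Core
import Pool.Agent.helper81.OM.Num

/-!
# The data satisfy the hypotheses
-/

set_option autoImplicit false
set_option maxHeartbeats 4000000

namespace Pool.Agent.helper81.OM

open Finset Real

/-! ### Certificates from points of the plane -/

lemma sum_sq_diff {σ : Type} [Fintype σ] (k x : σ → ℝ) :
    ∑ j, ∑ l, k j * k l * ((x j - x l) ^ 2 / 2) = (∑ j, k j) * (∑ j, x j ^ 2 * k j) - (∑ j, k j * x j) ^ 2 := by
  have h1 : ∀ j l, k j * k l * ((x j - x l) ^ 2 / 2) =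
      (1 / 2) * (k l * (x j ^ 2 * k j)) + (1 / 2) * (k j * (x l ^ 2 * k l)) - (k j * x j) * (k l * x l) := by
    intro j l; ring
  simp_rw [h1, Finset.sum_sub_distrib, Finset.sum_add_distrib]
  have h2 : ∑ j, ∑ l, (1 / 2) * (k j * (x l ^ 2 * k l)) = (1 / 2) * ((∑ j, k j) * (∑ l, x l ^ 2 * k l)) := by
    rw [Finset.sum_mul_sum, Finset.mul_sum]
    refine Finset.sum_congr rfl fun j _ => ?_
    rw [Finset.mul_sum]
  have h3 : ∑ j, ∑ l, (1 / 2) * (k l * (x j ^ 2 * k j)) = (1 / 2) * ((∑ j, k j) * (∑ l, x l ^ 2 * k l)) := by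
    rw [Finset.sum_comm]; exact h2
  have h4 : ∑ j, ∑ l, (k j * x j) * (k l * x l) = (∑ j, k j * x j) ^ 2 := by
    rw [sq, Finset.sum_mul_sum]
  rw [h2, h3, h4]
  ring

lemma cert_of_points {N : ℕ} (y h : ℝ) (u v : Fin N → ℝ)
    (hp : ∀ j l : Fin N, (j : ℕ) < l → 2 * (y + h * (((l : ℕ) : ℝ) - ((j : ℕ) : ℝ) - 1)) ≤
      (u j - u l) ^ 2 + (v j - v l) ^ 2) :
    Cert (cst N y h) (fun j => u j ^ 2 + v j ^ 2) := by
  intro k hk
  have hc : ∀ j l : Fin N, cst N y h j l ≤ (u j - u l) ^ 2 / 2 + (v j - v l) ^ 2 / 2 := by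
    intro j l
    unfold cst
    split_ifs with hjl
    · positivity
    · have hne : (j : ℕ) ≠ l := fun h => hjl (Fin.ext h)
      rcases Nat.lt_or_gt_of_ne hne with h1 | h1
      · have h2 := hp j l h1
        have h3 : ((j : ℕ) : ℝ) ≤ ((l : ℕ) : ℝ) := by exact_mod_cast h1.le
        rw [abs_of_nonpos (by linarith)]
        have : -(((j : ℕ) : ℝ) - ((l : ℕ) : ℝ)) - 1 = ((l : ℕ) : ℝ) - ((j : ℕ) : ℝ) - 1 := by ring
        rw [this]; linarith
      · have h2 := hp l j h1
        have h3 : ((l : ℕ) : ℝ) ≤ ((j : ℕ) : ℝ) := by exact_mod_cast h1.le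
        rw [abs_of_nonneg (by linarith)]
        have e1 : (u j - u l) ^ 2 = (u l - u j) ^ 2 := by ring
        have e2 : (v j - v l) ^ 2 = (v l - v j) ^ 2 := by ring
        rw [e1, e2]; linarith
  have h1 : ∑ j, ∑ l, k j * k l * cst N y h j l ≤
      ∑ j, ∑ l, (k j * k l * ((u j - u l) ^ 2 / 2) + k j * k l * ((v j - v l) ^ 2 / 2)) := by
    refine Finset.sum_le_sum fun j _ => Finset.sum_le_sum fun l _ => ?_
    rw [← mul_add]
    exact mul_le_mul_of_nonneg_left (hc j l) (mul_nonneg (hk j) (hk l))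
  refine h1.trans ?_
  simp_rw [Finset.sum_add_distrib]
  rw [sum_sq_diff, sum_sq_diff]
  have h2 : ∑ j, (u j ^ 2 + v j ^ 2) * k j = ∑ j, u j ^ 2 * k j + ∑ j, v j ^ 2 * k j := by
    rw [← Finset.sum_add_distrib]
    exact Finset.sum_congr rfl fun j _ => by ring
  rw [h2, mul_add]
  nlinarith [sq_nonneg (∑ j, k j * u j), sq_nonneg (∑ j, k j * v j)]

/-! ### Soundness of the fixed point arithmetic -/

lemma sq20_le (t : ℕ) (z : ℝ) (h : (t : ℝ) / 10 ^ 18 ≤ Real.exp z) :
    (sq20 t : ℝ) / 10 ^ 18 ≤ Real.exp (z * 2 ^ 20) := by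
  have key : ∀ k : ℕ, (((fun T : ℕ => T * T / 1000000000000000000)^[k] t : ℕ) : ℝ) / 10 ^ 18 ≤
      Real.exp (z * 2 ^ k) := by
    intro k
    induction k with
    | zero => simpa using h
    | succ k ih =>
      rw [Function.iterate_succ_apply']
      set T := (fun T : ℕ => T * T / 1000000000000000000)^[k] t with hT
      have h1 : ((T * T / 1000000000000000000 : ℕ) : ℝ) ≤ (T : ℝ) * T / 10 ^ 18 := by
        refine Nat.cast_div_le.trans (le_of_eq ?_)
        push_cast
        norm_num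
      calc ((T * T / 1000000000000000000 : ℕ) : ℝ) / 10 ^ 18 ≤ ((T : ℝ) * T / 10 ^ 18) / 10 ^ 18 := by gcongr
        _ = ((T : ℝ) / 10 ^ 18) * ((T : ℝ) / 10 ^ 18) := by ring
        _ ≤ Real.exp (z * 2 ^ k) * Real.exp (z * 2 ^ k) :=
            mul_le_mul ih ih (by positivity) (Real.exp_pos _).le
        _ = Real.exp (z * 2 ^ (k + 1)) := by rw [← Real.exp_add]; congr 1; ring
  exact key 20

lemma eneg_le (m : ℕ) : (eneg m : ℝ) / 10 ^ 18 ≤ Real.exp (-(m / 10 ^ 8 : ℝ)) := by
  have h1 := sq20_le (1000000000000000000 - (1000000000000000000 * m / (100000000 * 1048576) + 1))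
    (-(m / (10 ^ 8 * 2 ^ 20) : ℝ)) (by
      have h2 := Real.add_one_le_exp (-(m / (10 ^ 8 * 2 ^ 20) : ℝ))
      rcases Nat.le_total (1000000000000000000 * m / (100000000 * 1048576) + 1) 1000000000000000000 with h | h
      · refine le_trans ?_ h2
        rw [Nat.cast_sub h, div_le_iff₀ (by positivity)]
        have h3 : (1000000000000000000 * (m : ℝ)) / (100000000 * 1048576) <
            ((1000000000000000000 * m / (100000000 * 1048576) : ℕ) : ℝ) + 1 := by
          have := Nat.lt_div_mul_add (a := 1000000000000000000 * m) (b := 100000000 * 1048576) (by norm_num)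
          rw [div_lt_iff₀ (by norm_num)]
          have h5 : ((1000000000000000000 * m : ℕ) : ℝ) <
              ((1000000000000000000 * m / (100000000 * 1048576) * (100000000 * 1048576) + 100000000 * 1048576 : ℕ) : ℝ) := by
            exact_mod_cast this
          push_cast at h5
          push_cast
          linarith
        push_cast at h3 ⊢
        have h4 : (-(m / (10 ^ 8 * 2 ^ 20) : ℝ) + 1) * 10 ^ 18 =
            10 ^ 18 - (1000000000000000000 * (m : ℝ)) / (100000000 * 1048576) := by ring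
        rw [h4]
        linarith
      · rw [Nat.sub_eq_zero_of_le h]
        simp only [Nat.cast_zero, zero_div]
        exact (Real.exp_pos _).le)
  refine h1.trans (le_of_eq ?_)
  congr 1
  ring

lemma epos_le (m : ℕ) : (epos m : ℝ) / 10 ^ 18 ≤ Real.exp (m / 10 ^ 8 : ℝ) := by
  have h1 := sq20_le (1000000000000000000 + 1000000000000000000 * m / (100000000 * 1048576))
    (m / (10 ^ 8 * 2 ^ 20) : ℝ) (by
      have h2 := Real.add_one_le_exp (m / (10 ^ 8 * 2 ^ 20) : ℝ)
      refine le_trans ?_ h2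
      rw [div_le_iff₀ (by positivity)]
      have h3 : ((1000000000000000000 * m / (100000000 * 1048576) : ℕ) : ℝ) ≤
          (1000000000000000000 * (m : ℝ)) / (100000000 * 1048576) := by
        refine Nat.cast_div_le.trans (le_of_eq ?_)
        push_cast
        norm_num
      push_cast at h3 ⊢
      have h4 : ((m / (10 ^ 8 * 2 ^ 20) : ℝ) + 1) * 10 ^ 18 =
          10 ^ 18 + (1000000000000000000 * (m : ℝ)) / (100000000 * 1048576) := by ring
      rw [h4]
      linarith)
  refine h1.trans (le_of_eq ?_)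
  congr 1
  ring

lemma le_toNat (z : ℤ) : (z : ℝ) ≤ ((z.toNat : ℕ) : ℝ) := by
  have := Int.self_le_toNat z
  exact_mod_cast this

lemma toNat_eq {z : ℤ} (h : 0 ≤ z) : ((z.toNat : ℕ) : ℝ) = z := by
  have := Int.toNat_of_nonneg h
  exact_mod_cast this

/-! ### The functions -/

/-- the class number `i` -/
def rw_ (l : List ℕ) (i : ℕ) : ℕ := l.getD i 0

/-- thresholds -/
noncomputable def yv (l : List ℕ) (i : ℕ) : ℝ := (dg (rw_ l i) 0 : ℝ) / 100

/-- values -/
noncomputable def rv (l : List ℕ) (i : ℕ) : ℝ := if i < l.length then (dg (rw_ l i) 1 : ℝ) / 10 ^ 5 else 0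

/-- weights -/
noncomputable def lv (l : List ℕ) (i : ℕ) (j : Fin 5) : ℝ :=
  ((dg (rw_ l i) (2 + 2 * (j : ℕ)) : ℝ) / 10 ^ 4) ^ 2 + ((dg (rw_ l i) (3 + 2 * (j : ℕ)) : ℝ) / 10 ^ 4) ^ 2

lemma okall_get {l : List ℕ} (h : okall l = true) {i : ℕ} (hi : i < l.length) : okrow (rw_ l i) = true := by
  induction l generalizing i with
  | nil => simp at hi
  | cons a l ih =>
    rw [okall, Bool.and_eq_true] at h
    rcases i with _ | i
    · exact h.1
    · simpa [rw_] using ih h.2 (i := i) (by simpa using hi)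

lemma okchain_get {l : List ℕ} (h : okchain l = true) {i : ℕ} (hi : i + 1 < l.length) :
    dg (rw_ l i) 0 ≤ dg (rw_ l (i + 1)) 0 ∧ dg (rw_ l (i + 1)) 1 ≤ dg (rw_ l i) 1 := by
  induction l generalizing i with
  | nil => simp at hi
  | cons a l ih =>
    rcases l with _ | ⟨b, l⟩
    · simp at hi
    · rw [okchain, Bool.and_eq_true, Bool.and_eq_true, decide_eq_true_eq, decide_eq_true_eq] at h
      rcases i with _ | i
      · simpa [rw_] using h.1
      · simpa [rw_] using ih h.2 (i := i) (by simpa using hi)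

lemma okchain_last {l : List ℕ} (h : okchain l = true) {i : ℕ} (hi : i + 1 = l.length) :
    0 ≤ dg (rw_ l i) 1 := by
  induction l generalizing i with
  | nil => simp at hi
  | cons a l ih =>
    rcases l with _ | ⟨b, l⟩
    · rw [okchain, decide_eq_true_eq] at h
      have : i = 0 := by simpa using hi
      subst this
      simpa [rw_] using h
    · rw [okchain, Bool.and_eq_true] at h
      rcases i with _ | i
      · simp at hi
      · simpa [rw_] using ih h.2 (i := i) (by simpa using hi)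

lemma rv_anti {l : List ℕ} (h : okchain l = true) (i : ℕ) : rv l (i + 1) ≤ rv l i := by
  unfold rv
  rcases Nat.lt_trichotomy (i + 1) l.length with h1 | h1 | h1
  · rw [if_pos h1, if_pos (by omega)]
    have := (okchain_get h h1).2
    have : (dg (rw_ l (i + 1)) 1 : ℝ) ≤ dg (rw_ l i) 1 := by exact_mod_cast this
    gcongr
  · rw [if_neg (by omega), if_pos (by omega)]
    have := okchain_last h h1
    have : (0 : ℝ) ≤ dg (rw_ l i) 1 := by exact_mod_cast this
    positivity
  · rw [if_neg (by omega), if_neg (by omega)]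

lemma gsum_le {l : List ℕ} (h : okchain l = true) :
    (gsum l : ℝ) / (10 ^ 5 * 10 ^ 18) ≤
      ∑ i ∈ Finset.range l.length, (rv l i - rv l (i + 1)) * Real.exp (yv l i - 7) := by
  induction l with
  | nil => simp [gsum]
  | cons a l ih =>
    have hexp : (eneg (700000000 - dg a 0 * 1000000).toNat : ℝ) / 10 ^ 18 ≤ Real.exp ((dg a 0 : ℝ) / 100 - 7) := by
      refine (eneg_le _).trans (Real.exp_le_exp.2 ?_)
      have h1 := le_toNat (700000000 - dg a 0 * 1000000)
      push_cast at h1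
      have h2 : ((dg a 0 : ℝ) / 100 - 7) = -((700000000 - (dg a 0 : ℝ) * 1000000) / 10 ^ 8) := by ring
      rw [h2]
      gcongr
    rcases l with _ | ⟨b, l⟩
    · rw [okchain, decide_eq_true_eq] at h
      have h0 : (0 : ℝ) ≤ dg a 1 := by exact_mod_cast h
      simp only [List.length_cons, List.length_nil, zero_add, Finset.sum_range_one, gsum, rv, yv, rw_]
      norm_num
      rw [toNat_eq h]
      calc (dg a 1 : ℝ) * (eneg (700000000 - dg a 0 * 1000000).toNat : ℝ) / 100000000000000000000000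
          = (dg a 1 : ℝ) / 100000 * ((eneg (700000000 - dg a 0 * 1000000).toNat : ℝ) / 10 ^ 18) := by ring
        _ ≤ _ := by gcongr
    · have h' := h
      rw [okchain, Bool.and_eq_true, Bool.and_eq_true, decide_eq_true_eq, decide_eq_true_eq] at h
      have ih' := ih h.2
      rw [List.length_cons, Finset.sum_range_succ']
      have e1 : ∀ i, rv (a :: b :: l) (i + 1) = rv (b :: l) i := by
        intro i
        simp [rv, rw_]
      have e2 : ∀ i, yv (a :: b :: l) (i + 1) = yv (b :: l) i := by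
        intro i
        simp [yv, rw_]
      have e3 : ∑ i ∈ Finset.range (b :: l).length,
          (rv (a :: b :: l) (i + 1) - rv (a :: b :: l) (i + 1 + 1)) * Real.exp (yv (a :: b :: l) (i + 1) - 7) =
          ∑ i ∈ Finset.range (b :: l).length, (rv (b :: l) i - rv (b :: l) (i + 1)) * Real.exp (yv (b :: l) i - 7) := by
        refine Finset.sum_congr rfl fun i _ => ?_
        rw [e1, e1, e2]
      rw [e3]
      have e4 : rv (a :: b :: l) 0 = (dg a 1 : ℝ) / 10 ^ 5 := by simp [rv, rw_]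
      have e5 : rv (a :: b :: l) (0 + 1) = (dg b 1 : ℝ) / 10 ^ 5 := by simp [rv, rw_]
      have e6 : yv (a :: b :: l) 0 = (dg a 0 : ℝ) / 100 := by simp [yv, rw_]
      rw [e4, e5, e6, gsum]
      have h3 : ((dg a 1 - dg b 1).toNat : ℝ) = (dg a 1 : ℝ) - dg b 1 := by
        rw [toNat_eq (by linarith [h.1.2])]; push_cast; ring
      have h4 : (0 : ℝ) ≤ (dg a 1 : ℝ) - dg b 1 := by
        have : (dg b 1 : ℝ) ≤ dg a 1 := by exact_mod_cast h.1.2
        linarith
      have h5 : (((dg a 1 - dg b 1).toNat * eneg (700000000 - dg a 0 * 1000000).toNat + gsum (b :: l) : ℕ) : ℝ) /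
          (10 ^ 5 * 10 ^ 18) = ((dg a 1 : ℝ) - dg b 1) / 10 ^ 5 *
          ((eneg (700000000 - dg a 0 * 1000000).toNat : ℝ) / 10 ^ 18) + (gsum (b :: l) : ℝ) / (10 ^ 5 * 10 ^ 18) := by
        push_cast
        rw [h3]; ring
      rw [h5]
      have h6 : ((dg a 1 : ℝ) - dg b 1) / 10 ^ 5 * ((eneg (700000000 - dg a 0 * 1000000).toNat : ℝ) / 10 ^ 18) ≤
          ((dg a 1 : ℝ) - dg b 1) / 10 ^ 5 * Real.exp ((dg a 0 : ℝ) / 100 - 7) := by
        gcongr
      have h7 : ((dg a 1 : ℝ) / 10 ^ 5 - (dg b 1 : ℝ) / 10 ^ 5) = ((dg a 1 : ℝ) - dg b 1) / 10 ^ 5 := by ring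
      rw [h7]
      linarith

end Pool.Agent.helper81.OM
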