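import Mathlib
import Pool.Agent.helper81.OM.Link

/-!
# The constant `4.5`
-/

set_option autoImplicit false
set_option maxHeartbeats 4000000

namespace Pool.Agent.helper81.OM

open Finset Real

lemma dat_length : dat.length = 300 := by decide +kernel

lemma dat_last : 0 ≤ dg (rw_ dat 299) 0 := by decide +kernel

lemma okrow_pair {v : ℕ} (h : okrow v = true) : ∀ j l : ℕ, j < l → l < 5 →
    2 * (dg v 0 * 1000000 + 225010000 * ((l : ℤ) - j - 1)) ≤ dst v j l := by
  simp only [okrow, okpair, Bool.and_eq_true, decide_eq_true_eq] at h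
  obtain ⟨⟨⟨⟨⟨⟨⟨⟨⟨⟨h01, h02⟩, h03⟩, h04⟩, h12⟩, h13⟩, h14⟩, h23⟩, h24⟩, h34⟩, -⟩ := h
  intro j l hjl hl
  interval_cases l <;> interval_cases j <;> assumption

lemma okrow_exp {v : ℕ} (h : okrow v = true) :
    1000000000000000000 * 1000000000000000000 ≤ eneg ((dg v 1).toNat * 1000) *
      (eneg (nrm v 0).toNat + eneg (nrm v 1).toNat + eneg (nrm v 2).toNat + eneg (nrm v 3).toNat +
        eneg (nrm v 4).toNat) := by
  simp only [okrow, Bool.and_eq_true, decide_eq_true_eq] at h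
  exact h.2

lemma nrm_nonneg (v j : ℕ) : 0 ≤ nrm v j := by
  unfold nrm
  nlinarith [mul_self_nonneg (dg v (2 + 2 * j)), mul_self_nonneg (dg v (3 + 2 * j))]

theorem data : Data 5 299 (yv dat) (rv dat) (lv dat) 2.2501
    (∑ i ∈ Finset.range 300, ∑ j, lv dat i j) where
  hN := by norm_num
  hh := by norm_num
  hy := by
    intro i hi
    have := (okchain_get okchain_dat (i := i) (by rw [dat_length]; omega)).1
    have : (dg (rw_ dat i) 0 : ℝ) ≤ dg (rw_ dat (i + 1)) 0 := by exact_mod_cast this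
    unfold yv
    gcongr
  hyB := by
    have : (0 : ℝ) ≤ dg (rw_ dat 299) 0 := by exact_mod_cast dat_last
    unfold yv
    positivity
  hr := fun i _ => rv_anti okchain_dat i
  hrB := by
    unfold rv
    rw [if_neg (by rw [dat_length]; norm_num)]
  hlam := by
    intro i _ j
    unfold lv
    positivity
  hlm := by
    intro i hi j
    have h0 : ∀ i j, 0 ≤ lv dat i j := by
      intro i j; unfold lv; positivity
    calc lv dat i j ≤ ∑ j, lv dat i j :=
          Finset.single_le_sum (f := fun j => lv dat i j) (fun j _ => h0 i j) (Finset.mem_univ j)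
      _ ≤ _ := Finset.single_le_sum (f := fun i => ∑ j, lv dat i j)
          (fun i _ => Finset.sum_nonneg fun j _ => h0 i j) (Finset.mem_range.2 (by omega))
  hlm0 := by
    refine Finset.sum_nonneg fun i _ => Finset.sum_nonneg fun j _ => ?_
    unfold lv
    positivity
  hcert := by
    intro i hi
    have hrow := okall_get okall_dat (i := i) (by rw [dat_length]; omega)
    have hp := okrow_pair hrow
    refine cert_of_points (N := 5) (yv dat i) 2.2501
      (fun j => (dg (rw_ dat i) (2 + 2 * (j : ℕ)) : ℝ) / 10 ^ 4)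
      (fun j => (dg (rw_ dat i) (3 + 2 * (j : ℕ)) : ℝ) / 10 ^ 4) ?_
    intro j l hjl
    have h1 := hp j l hjl l.2
    unfold dst at h1
    have h2 : ((2 * (dg (rw_ dat i) 0 * 1000000 + 225010000 * (((l : ℕ) : ℤ) - ((j : ℕ) : ℤ) - 1)) : ℤ) : ℝ) ≤
      (((dg (rw_ dat i) (2 + 2 * (j : ℕ)) - dg (rw_ dat i) (2 + 2 * (l : ℕ))) *
        (dg (rw_ dat i) (2 + 2 * (j : ℕ)) - dg (rw_ dat i) (2 + 2 * (l : ℕ))) +
      (dg (rw_ dat i) (3 + 2 * (j : ℕ)) - dg (rw_ dat i) (3 + 2 * (l : ℕ))) *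
        (dg (rw_ dat i) (3 + 2 * (j : ℕ)) - dg (rw_ dat i) (3 + 2 * (l : ℕ))) : ℤ) : ℝ) := by
      exact_mod_cast h1
    push_cast at h2
    simp only [yv]
    norm_num
    nlinarith
  hexp := by
    intro i hi
    have hrow := okall_get okall_dat (i := i) (by rw [dat_length]; omega)
    have h1 := okrow_exp hrow
    set v := rw_ dat i with hv
    have hlv : ∀ j : Fin 5, (eneg (nrm v (j : ℕ)).toNat : ℝ) / 10 ^ 18 ≤ Real.exp (-lv dat i j) := by
      intro j
      refine (eneg_le _).trans (Real.exp_le_exp.2 (le_of_eq ?_))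
      rw [toNat_eq (nrm_nonneg v j)]
      unfold lv nrm
      rw [← hv]
      push_cast
      ring
    have h2 : Real.exp (rv dat i) * ((eneg ((dg v 1).toNat * 1000) : ℝ) / 10 ^ 18) ≤ 1 := by
      have h3 := eneg_le ((dg v 1).toNat * 1000)
      have h4 : Real.exp (rv dat i) ≤ Real.exp (((dg v 1).toNat * 1000 : ℕ) / 10 ^ 8 : ℝ) := by
        apply Real.exp_le_exp.2
        unfold rv
        rw [if_pos (by rw [dat_length]; omega), ← hv]
        have h5 := le_toNat (dg v 1)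
        push_cast
        have h6 : ((dg v 1).toNat : ℝ) * 1000 / 10 ^ 8 = ((dg v 1).toNat : ℝ) / 10 ^ 5 := by ring
        rw [h6]
        gcongr
      calc _ ≤ Real.exp (((dg v 1).toNat * 1000 : ℕ) / 10 ^ 8 : ℝ) * Real.exp (-(((dg v 1).toNat * 1000 : ℕ) / 10 ^ 8 : ℝ)) :=
            mul_le_mul h4 h3 (by positivity) (Real.exp_pos _).le
        _ = 1 := by rw [← Real.exp_add]; simp
    have h3 : (1 : ℝ) ≤ (eneg ((dg v 1).toNat * 1000) : ℝ) / 10 ^ 18 * ∑ j, Real.exp (-lv dat i j) := by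
      have h4 : (1000000000000000000 : ℝ) * 1000000000000000000 ≤ eneg ((dg v 1).toNat * 1000) *
          ((eneg (nrm v 0).toNat : ℝ) + eneg (nrm v 1).toNat + eneg (nrm v 2).toNat + eneg (nrm v 3).toNat +
          eneg (nrm v 4).toNat) := by exact_mod_cast h1
      have h5 : (eneg (nrm v 0).toNat : ℝ) / 10 ^ 18 + (eneg (nrm v 1).toNat : ℝ) / 10 ^ 18 +
          (eneg (nrm v 2).toNat : ℝ) / 10 ^ 18 + (eneg (nrm v 3).toNat : ℝ) / 10 ^ 18 +
          (eneg (nrm v 4).toNat : ℝ) / 10 ^ 18 ≤ ∑ j, Real.exp (-lv dat i j) := by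
        rw [Fin.sum_univ_five]
        have a0 := hlv 0
        have a1 := hlv 1
        have a2 := hlv 2
        have a3 := hlv 3
        have a4 := hlv 4
        simp only [Fin.val_zero, Fin.val_one, Fin.val_two] at a0 a1 a2
        have e3 : ((3 : Fin 5) : ℕ) = 3 := rfl
        have e4 : ((4 : Fin 5) : ℕ) = 4 := rfl
        rw [e3] at a3
        rw [e4] at a4
        linarith
      refine le_trans ?_ (mul_le_mul_of_nonneg_left h5 (by positivity))
      have e : (eneg ((dg v 1).toNat * 1000) : ℝ) / 10 ^ 18 * ((eneg (nrm v 0).toNat : ℝ) / 10 ^ 18 + (eneg (nrm v 1).toNat : ℝ) / 10 ^ 18 +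
          (eneg (nrm v 2).toNat : ℝ) / 10 ^ 18 + (eneg (nrm v 3).toNat : ℝ) / 10 ^ 18 +
          (eneg (nrm v 4).toNat : ℝ) / 10 ^ 18) = eneg ((dg v 1).toNat * 1000) *
          ((eneg (nrm v 0).toNat : ℝ) + eneg (nrm v 1).toNat + eneg (nrm v 2).toNat + eneg (nrm v 3).toNat +
          eneg (nrm v 4).toNat) / (10 ^ 18 * 10 ^ 18) := by ring
      rw [e, le_div_iff₀ (by positivity)]
      norm_num
      norm_num at h4
      exact h4
    have hpos : 0 < ∑ j, Real.exp (-lv dat i j) := Finset.sum_pos (fun j _ => Real.exp_pos _) ⟨0, Finset.mem_univ _⟩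
    calc Real.exp (rv dat i) = Real.exp (rv dat i) * 1 := (mul_one _).symm
      _ ≤ Real.exp (rv dat i) * ((eneg ((dg v 1).toNat * 1000) : ℝ) / 10 ^ 18 * ∑ j, Real.exp (-lv dat i j)) :=
          mul_le_mul_of_nonneg_left h3 (Real.exp_pos _).le
      _ = Real.exp (rv dat i) * ((eneg ((dg v 1).toNat * 1000) : ℝ) / 10 ^ 18) * ∑ j, Real.exp (-lv dat i j) := by ring
      _ ≤ 1 * ∑ j, Real.exp (-lv dat i j) := mul_le_mul_of_nonneg_right h2 hpos.le
      _ = _ := one_mul _

lemma dat_G_aux (E Gm Sm : ℝ) (hE0 : 0 ≤ E) (hG0 : 0 ≤ Gm) (h1 : Gm / (10 ^ 5 * 10 ^ 18) ≤ Sm * Real.exp (-7))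
    (h2 : E / 10 ^ 18 ≤ Real.exp (7 - (2.2501 - 1)))
    (h3 : (2 : ℝ) * 100000 * 1000000000000000000 * 1000000000000000000 < 3 * E * Gm) :
    2 / 3 * Real.exp (2.2501 - 1) < Sm := by
  have h4 : (2 : ℝ) < 3 * (E / 10 ^ 18) * (Gm / (10 ^ 5 * 10 ^ 18)) := by
    have e : 3 * (E / 10 ^ 18) * (Gm / (10 ^ 5 * 10 ^ 18)) = (3 * E * Gm) / (10 ^ 18 * (10 ^ 5 * 10 ^ 18)) := by ring
    rw [e, lt_div_iff₀ (by positivity)]
    norm_num
    norm_num at h3
    exact h3
  have h7 : (2 : ℝ) < 3 * Real.exp (7 - (2.2501 - 1)) * (Sm * Real.exp (-7)) := by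
    refine lt_of_lt_of_le h4 ?_
    apply mul_le_mul _ h1 (by positivity) (by positivity)
    linarith
  have h8 : Real.exp (7 - (2.2501 - 1)) * Real.exp (-7) * Real.exp (2.2501 - 1) = 1 := by
    rw [← Real.exp_add, ← Real.exp_add]; norm_num
  have h9 : 2 * Real.exp (2.2501 - 1) < 3 * Sm := by
    have := mul_lt_mul_of_pos_right h7 (Real.exp_pos (2.2501 - 1))
    calc 2 * Real.exp (2.2501 - 1) < 3 * Real.exp (7 - (2.2501 - 1)) * (Sm * Real.exp (-7)) * Real.exp (2.2501 - 1) := this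
      _ = 3 * Sm * (Real.exp (7 - (2.2501 - 1)) * Real.exp (-7) * Real.exp (2.2501 - 1)) := by ring
      _ = 3 * Sm := by rw [h8, mul_one]
  linarith

theorem dat_G : 2 / 3 * Real.exp (2.2501 - 1) <
    ∑ i ∈ Finset.range (299 + 1), (rv dat i - rv dat (i + 1)) * Real.exp (yv dat i) := by
  have h1 := gsum_le okchain_dat
  rw [dat_length] at h1
  have h6 : ∑ i ∈ Finset.range 300, (rv dat i - rv dat (i + 1)) * Real.exp (yv dat i - 7) =
      (∑ i ∈ Finset.range 300, (rv dat i - rv dat (i + 1)) * Real.exp (yv dat i)) * Real.exp (-7) := by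
    rw [Finset.sum_mul]
    refine Finset.sum_congr rfl fun i _ => ?_
    rw [show yv dat i - 7 = yv dat i + (-7) by ring, Real.exp_add, mul_assoc]
  rw [h6] at h1
  have h2 := epos_le (800000000 - 225010000)
  have h5 : ((800000000 - 225010000 : ℕ) : ℝ) / 10 ^ 8 = 7 - (2.2501 - 1) := by norm_num
  rw [h5] at h2
  have h3 : (2 : ℝ) * 100000 * 1000000000000000000 * 1000000000000000000 <
      3 * (epos (800000000 - 225010000) : ℝ) * (gsum dat : ℝ) := by exact_mod_cast gsum_dat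
  exact dat_G_aux _ _ _ (Nat.cast_nonneg _) (Nat.cast_nonneg _) h1 h2 h3

end Pool.Agent.helper81.OM
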